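import Pool.Agent.Lib.MP_9c87eb_gt.FibDefs

/-! Definitions for the assembly: the moduli space `MF` of the frozen statement for the fibre `FF`,
the normed space `EB` of bounded sequences, the map `jj : (0,1)^ℕ → EB`, the relation `rho`. -/

set_option autoImplicit false

namespace Pool.Agent.MQ

open Set Topology

/-- the space of embeddings of `FF` -/
abbrev Em : Type := {φ : C(FF, ℕ → Set.Ioo (0 : ℝ) 1) // Topology.IsEmbedding ⇑φ}

/-- the moduli space, exactly as in the frozen statement -/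
abbrev MF : Type := Quot (fun φ ψ : {φ : C(FF, ℕ → Set.Ioo (0 : ℝ) 1) // Topology.IsEmbedding ⇑φ} =>
  ∃ h : FF ≃ₜ FF, ∀ x : FF, ψ.1 x = φ.1 (h x))

/-- the class of an embedding -/
def mkM (φ : Em) : MF := Quot.mk _ φ

/-- the ambient Banach space -/
abbrev EB : Type := BoundedContinuousFunction ℕ ℝ

/-- `x ↦ (2⁻ⁿ xₙ)` -/
noncomputable def jj (x : ℕ → Set.Ioo (0 : ℝ) 1) : EB :=
  BoundedContinuousFunction.ofNormedAddCommGroup (fun n => (1 / 2 : ℝ) ^ n * (x n : ℝ))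
    continuous_of_discreteTopology 1 (fun n => by
      have h := (x n).2
      rw [norm_mul, norm_pow, Real.norm_of_nonneg h.1.le]
      have h1 : ‖(1 / 2 : ℝ)‖ ^ n ≤ 1 := by
        rw [Real.norm_of_nonneg (by norm_num)]
        exact pow_le_one₀ (by norm_num) (by norm_num)
      nlinarith [h.1, h.2.le, norm_nonneg ((1 / 2 : ℝ)), pow_nonneg (norm_nonneg ((1 / 2 : ℝ))) n])

/-- `(0,1)^ℕ ⊆ [0,1]^ℕ` -/
def ic (x : ℕ → Set.Ioo (0 : ℝ) 1) : HC := fun n => ⟨(x n : ℝ), (x n).2.1.le, (x n).2.2.le⟩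

/-- a uniformly continuous left inverse of `jj` -/
noncomputable def cl (y : EB) : HC := fun n => Set.projIcc 0 1 zero_le_one (2 ^ n * y n)

/-- the classes `m`, `m'` have `ε`-close representatives -/
def rho (ε : ℝ) (m m' : MF) : Prop :=
  ∃ φ φ' : Em, mkM φ = m ∧ mkM φ' = m' ∧ ∀ x, ‖jj (φ.1 x) - jj (φ'.1 x)‖ < ε

/-- The data of the family over `EE / ℤ_2`. -/
structure Setup (𝔽 : Fib) where
  JE : EE → HC
  JE_cont : Continuous JE
  JE_eq : ∀ e e', JE e = JE e' ↔ ∃ a, actE a e = e'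
  J : EE × 𝔽.F → ℕ → Set.Ioo (0 : ℝ) 1
  J_cont : Continuous J
  J_eq : ∀ e e' x x', J (e, x) = J (e', x') ↔ ∃ a, actE a e = e' ∧ 𝔽.act a x = x'
  G0 : FF ≃ₜ 𝔽.F
  G0_close : ∀ x, dist (𝔽.th (G0 x)) x.1 < 1 / 16
  φ : EE → Em
  φ_apply : ∀ e x, (φ e).1 x = J (e, G0 x)
  φ_cont : Continuous φ
  θ : EB → ℂ
  θ_uc : UniformContinuous θ
  θ_eq : ∀ e x, θ (jj (J (e, x))) = (𝔽.th x : ℂ)
  vt : EB → ℝ
  vt_uc : UniformContinuous vt
  vt_eq : ∀ e x, vt (jj (J (e, x))) = 𝔽.vth x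
  Ps : Fin 2 → EE × EB → ℂ
  Ps_uc : ∀ b, UniformContinuous (Ps b)
  Ps_eq : ∀ b e x, Ps b (e, jj (J (e, x))) = 𝔽.Psi b x

end Pool.Agent.MQ
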