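import Mathlib
import Pool.Agent.Lib.MP_13800a_gt.S3

/-!
# MP_9c87eb_gt (frozen statement S13644): definitions

* `HC` Hilbert cube, `FF = S¹ × HC` the fibre, `QQ = ∏ DD` with `DD` the unit ball of `ℂ²`,
* `chr a j` the characters of the 2-adic integers, `actQ`, `actE` the actions,
* `BondSys` bonding maps `S3 → S3` with extensions to `ℂ²`, `Phi` the limit set in `QQ`,
* `PP d` the pinched space `([0,1] × QQ) / PS d`.
-/

set_option autoImplicit false

namespace Pool.Agent.MQ

open Set Topology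
open Pool.Agent.CRC (UI SB zt ztC S3 rot)

/-- the Hilbert cube -/
abbrev HC : Type := ℕ → unitInterval

/-- the fibre -/
abbrev FF : Type := Circle × HC

/-- `ℂ²` with the sup norm -/
abbrev VV : Type := ℂ × ℂ

/-- the closed unit ball of `VV` -/
abbrev DD : Type := ↥(Metric.closedBall (0 : VV) 1)

/-- the product of the balls -/
abbrev QQ : Type := ℕ → DD

/-- an infinite product of copies of `QQ` -/
abbrev QP : Type := ℕ → QQ

/-- the orders `2 ^ 2 ^ j` -/
def NN (j : ℕ) : ℕ := 2 ^ 2 ^ j

theorem NN_zero : NN 0 = 2 := rfl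

theorem NN_succ (j : ℕ) : NN (j + 1) = NN j * NN j := by
  unfold NN
  rw [← pow_add]; congr 1; rw [pow_succ]; ring

theorem NN_pos (j : ℕ) : 0 < NN j := by unfold NN; positivity

theorem NN_ne_zero (j : ℕ) : NN j ≠ 0 := (NN_pos j).ne'

/-- the characters of the 2-adic integers -/
noncomputable def chr (a : ℤ_[2]) (j : ℕ) : Circle :=
  ztC (NN j) ^ (PadicInt.toZModPow (p := 2) (2 ^ j) a).val

/-- a point of the circle acts on the ball -/
def cD (c : Circle) (x : DD) : DD := ⟨(c : ℂ) • x.1, by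
  have h := x.2
  rw [mem_closedBall_zero_iff] at h ⊢
  rw [norm_smul, Circle.norm_coe, one_mul]; exact h⟩

/-- a point of the circle acts on the sphere of the sup norm -/
def cS {m : ℕ} (c : Circle) (x : SB m) : SB m := ⟨(c : ℂ) • x.1, by
  have h := x.2
  rw [mem_sphere_zero_iff_norm] at h ⊢
  rw [norm_smul, Circle.norm_coe, one_mul, h]⟩

/-- action on `QQ` -/
noncomputable def actQ (a : ℤ_[2]) (x : QQ) : QQ := fun j => cD (chr a j) (x j)

/-- the free compact space `E` -/
abbrev EE : Type := ∀ j : ℕ, SB (NN j)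

/-- action on `EE` -/
noncomputable def actE (a : ℤ_[2]) (e : EE) : EE := fun j => cS (chr a j) (e j)

/-- the generator -/
noncomputable def tau (e : EE) : EE := fun j => cS (ztC (NN j)) (e j)

/-- the truncated generators -/
noncomputable def tauK (k : ℕ) (e : EE) : EE := fun j =>
  if j ≤ k then cS (ztC (NN j)) (e j) else e j

/-- `z ↦ z / 4` from the 3-sphere to `VV` -/
noncomputable def quart (z : S3) : VV := (1 / 4 : ℝ) • z.1

/-- Bonding maps of the 3-spheres with continuous extensions to `VV`. -/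
structure BondSys where
  f : ℕ → S3 → S3
  g : ℕ → VV → S3
  hf : ∀ j, Continuous (f j)
  hg : ∀ j, Continuous (g j)
  heq : ∀ j z, f j (rot (ztC (NN (j + 1))) z) = rot (ztC (NN j)) (f j z)
  hgf : ∀ j z, g j (quart z) = f j z

/-- the limit set in `QQ` -/
def Phi (B : BondSys) : Set QQ := {x | ∀ j, (x j : VV) = quart (B.g j (x (j + 1) : VV))}

/-- the ambient space of the pinched spaces -/
abbrev PM : Type := Circle × ℝ × (ℕ → VV)

/-- the second coordinate `d(x)(1-s)` -/
def eC (d : QQ → ℝ) (p : UI × QQ) : ℝ := d p.2 * (1 - (p.1 : ℝ))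

/-- the first coordinate `exp(2πis)` -/
noncomputable def zC (p : UI × QQ) : Circle := Circle.exp (2 * Real.pi * (p.1 : ℝ))

/-- the pinch map -/
noncomputable def qm (d : QQ → ℝ) (p : UI × QQ) : PM :=
  (zC p, eC d p, fun j => (‖(zC p : ℂ) - 1‖ + eC d p) • (p.2 j : VV))

/-- the pinched space -/
abbrev PP (d : QQ → ℝ) : Type := ↥(Set.range (qm d))

/-- the map to the pinched space -/
noncomputable def qP (d : QQ → ℝ) (p : UI × QQ) : PP d := ⟨qm d p, p, rfl⟩

/-- the set which is pinched to a point -/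
def PS (d : QQ → ℝ) : Set (UI × QQ) := {p | p.1 = 1 ∨ (p.1 = 0 ∧ d p.2 = 0)}

/-- the map `S¹ × QQ → PP 0` -/
noncomputable def cm (p : Circle × QQ) : PM :=
  (p.1, 0, fun j => ‖(p.1 : ℂ) - 1‖ • (p.2 j : VV))

end Pool.Agent.MQ
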