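import Pool.Agent.Lib.MP_9c87eb_gt.Mg.G002
import Pool.Agent.Lib.MP_9c87eb_gt.Mg.G001

/-! TASK F2: the continuous map `range JE → MF`.

`mkM (S.φ e)` depends only on `JE e`: if `actE a e = e'` then `J (e, x) = J (e', act a x)`, so
`φ e x = φ e' (G0⁻¹ (act a (G0 x)))`. `EE → range JE` is a quotient map (compact to Hausdorff). -/

set_option autoImplicit false

namespace Pool.Agent.MQ

open Set Topology

theorem exists_fmap (𝔽 : Fib) (S : Setup 𝔽) :
    ∃ f : C(Set.range S.JE, MF), ∀ e, f ⟨S.JE e, e, rfl⟩ = mkM (S.φ e) := by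
  classical
  let H : ℤ_[2] → 𝔽.F ≃ₜ 𝔽.F := fun a =>
    { toFun := 𝔽.act a
      invFun := 𝔽.act (-a)
      left_inv := fun x => by rw [← 𝔽.act_add, neg_add_cancel, 𝔽.act_zero]
      right_inv := fun x => by rw [← 𝔽.act_add, add_neg_cancel, 𝔽.act_zero]
      continuous_toFun := 𝔽.act_cont.comp (continuous_const.prodMk continuous_id)
      continuous_invFun := 𝔽.act_cont.comp (continuous_const.prodMk continuous_id) }
  have hH : ∀ a x, 𝔽.act a ((H a).symm x) = x := fun a x => (H a).apply_symm_apply x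
  have key : ∀ e e', S.JE e = S.JE e' → mkM (S.φ e) = mkM (S.φ e') := by
    intro e e' h
    obtain ⟨a, ha⟩ := (S.JE_eq e e').1 h
    rw [mkM_eq_iff]
    refine ⟨(S.G0.trans (H a).symm).trans S.G0.symm, fun x => ?_⟩
    rw [S.φ_apply, S.φ_apply]
    symm
    rw [S.J_eq]
    refine ⟨a, ha, ?_⟩
    simp only [Homeomorph.trans_apply, Homeomorph.apply_symm_apply]
    exact hH a _
  have hq : IsQuotientMap (Set.rangeFactorization S.JE) :=
    IsQuotientMap.of_surjective_continuous Set.rangeFactorization_surjective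
      (S.JE_cont.subtype_mk _)
  let f0 : C(EE, MF) := ⟨fun e => mkM (S.φ e), continuous_mkM.comp S.φ_cont⟩
  refine ⟨⟨fun y => mkM (S.φ (Classical.choose y.2)), ?_⟩, fun e => ?_⟩
  · rw [hq.continuous_iff]
    have : (fun y : Set.range S.JE => mkM (S.φ (Classical.choose y.2))) ∘
        Set.rangeFactorization S.JE = f0 := by
      funext e
      exact key _ _ (Classical.choose_spec (Set.rangeFactorization S.JE e).2)
    rw [this]
    exact f0.continuous
  · exact key _ _ (Classical.choose_spec (⟨S.JE e, e, rfl⟩ : Set.range S.JE).2)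

end Pool.Agent.MQ
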