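import Pool.Agent.Lib.MP_9c87eb_gt.Defs

/-! The interface of the geometric part: the structure `Fib`. -/

set_option autoImplicit false

namespace Pool.Agent.MQ

open Set Topology

/-- A compact space with an action of the 2-adic integers which is homeomorphic to `FF`, with
invariant functions `th` (to the circle) and `vth`, and an equivariant function `Psi` to `ℂ²` which
does not vanish where `th * exp(i vth)` lies in a small arc `exp(i (0, δ0])`. -/
structure Fib where
  F : Type
  [top : TopologicalSpace F]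
  [comp : CompactSpace F]
  [t2 : T2Space F]
  [sc : SecondCountableTopology F]
  act : ℤ_[2] → F → F
  act_zero : ∀ x, act 0 x = x
  act_add : ∀ a b x, act (a + b) x = act a (act b x)
  act_cont : Continuous fun p : ℤ_[2] × F => act p.1 p.2
  th : F → Circle
  th_cont : Continuous th
  th_inv : ∀ a x, th (act a x) = th x
  vth : F → ℝ
  vth_cont : Continuous vth
  vth_inv : ∀ a x, vth (act a x) = vth x
  Psi : Fin 2 → F → ℂ
  Psi_cont : ∀ b, Continuous (Psi b)
  Psi_eqv : ∀ a b x, Psi b (act a x) = (chr a 1 : ℂ) * Psi b x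
  δ0 : ℝ
  δ0_pos : 0 < δ0
  δ0_le : δ0 ≤ 1
  nonvan : ∀ x α, 0 < α → α ≤ δ0 → th x * Circle.exp (vth x) = Circle.exp α → ∃ b, Psi b x ≠ 0
  geo : ∀ ε : ℝ, 0 < ε → ∃ G : FF ≃ₜ F, ∀ x : FF, dist (th (G x)) x.1 < ε

attribute [instance] Fib.top Fib.comp Fib.t2 Fib.sc

end Pool.Agent.MQ
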