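import Pool.Agent.Lib.MP_9c87eb_gt.FibDefs
import Pool.Agent.Lib.MP_9c87eb_gt.Mg.G011
import Pool.Agent.Lib.MP_9c87eb_gt.Mg.G003

/-! TASK A3: existence of the fibre.

`F = PP d × QP` with `d` from `exists_dist B`, `B` from `exists_bondSys`. Action: on
`PM = Circle × ℝ × (ℕ → VV)` by `(z, e, y) ↦ (z, e, fun j => (chr a j : ℂ) • y j)`; it maps
`range (qm d)` to itself because `act (qm d (s, x)) = qm d (s, actQ a x)` (`d` is invariant); trivial
on `QP`. `th ((z, e, y), _) = z`, `vth = 2π e`, `Psi b ((z, e, y), _) = ` component `b` of `y 1`.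
Nonvanishing: for `(z, e, y) = qm d (s, x)`: `z exp(2πi e) = exp(2πi t)` with
`t = s + d x (1 - s) ∈ [0, 1]`; if this is `exp(iα)`, `0 < α ≤ δ0 ≤ 1`, then `t = α / 2π`
(`t` and `α/2π` differ by an integer), so `s ≤ α/2π`, `d x * (1 - s) ≤ α/2π`, hence
`d x ≤ δ0` (say). On the compact set `{x | x 1 = 0}`, which is disjoint from `Phi B`
(`x 1 = quart _ ≠ 0`), `d` is bounded below by a positive constant: choose `δ0` smaller. Then
`x 1 ≠ 0`, and `y 1 = (‖z - 1‖ + e) • x 1` with `‖z - 1‖ + e > 0` (it vanishes only on `PS d`, where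
`t ∈ {0, 1}`). `geo` is `exists_geo`. -/

set_option autoImplicit false

namespace Pool.Agent.MQ

open Set Topology

/-- the action on the ambient space of the pinched spaces -/
private noncomputable def actPM (a : ℤ_[2]) (w : PM) : PM :=
  (w.1, w.2.1, fun j => (chr a j : ℂ) • w.2.2 j)

private theorem actPM_qm {d : QQ → ℝ} (hinv : ∀ a x, d (actQ a x) = d x) (a : ℤ_[2])
    (p : Pool.Agent.CRC.UI × QQ) : actPM a (qm d p) = qm d (p.1, actQ a p.2) := by
  have h1 : zC (p.1, actQ a p.2) = zC p := rfl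
  have h2 : eC d (p.1, actQ a p.2) = eC d p := by
    unfold eC
    simp only [hinv]
  unfold actPM qm
  rw [h1, h2]
  refine Prod.ext rfl (Prod.ext rfl ?_)
  funext j
  show (chr a j : ℂ) • ((‖(zC p : ℂ) - 1‖ + eC d p) • (p.2 j : VV)) =
    (‖(zC p : ℂ) - 1‖ + eC d p) • ((actQ a p.2 j : DD) : VV)
  have h3 : ((actQ a p.2 j : DD) : VV) = (chr a j : ℂ) • (p.2 j : VV) := rfl
  rw [h3, smul_comm]

private theorem actPM_mem {d : QQ → ℝ} (hinv : ∀ a x, d (actQ a x) = d x) (a : ℤ_[2])
    (w : PM) (hw : w ∈ Set.range (qm d)) : actPM a w ∈ Set.range (qm d) := by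
  obtain ⟨p, rfl⟩ := hw
  exact ⟨_, (actPM_qm hinv a p).symm⟩

private theorem continuous_actPM : Continuous fun p : ℤ_[2] × PM => actPM p.1 p.2 := by
  unfold actPM
  refine Continuous.prodMk (by fun_prop) (Continuous.prodMk (by fun_prop) ?_)
  refine continuous_pi fun j => ?_
  have h1 : Continuous fun p : ℤ_[2] × PM => (chr p.1 j : ℂ) :=
    continuous_subtype_val.comp ((continuous_chr j).comp continuous_fst)
  have h2 : Continuous fun p : ℤ_[2] × PM => p.2.2.2 j :=
    (continuous_apply j).comp (continuous_snd.comp (continuous_snd.comp continuous_snd))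
  exact h1.smul h2

private theorem actPM_zero (w : PM) : actPM 0 w = w := by
  unfold actPM
  refine Prod.ext rfl (Prod.ext rfl ?_)
  funext j
  show (chr 0 j : ℂ) • w.2.2 j = w.2.2 j
  rw [chr_zero, Circle.coe_one, one_smul]

private theorem actPM_add (a b : ℤ_[2]) (w : PM) : actPM (a + b) w = actPM a (actPM b w) := by
  unfold actPM
  refine Prod.ext rfl (Prod.ext rfl ?_)
  funext j
  show (chr (a + b) j : ℂ) • w.2.2 j = (chr a j : ℂ) • (chr b j : ℂ) • w.2.2 j
  rw [chr_add, Circle.coe_mul, mul_smul]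

/-- the constant of the nonvanishing condition -/
private theorem exists_delta {B : BondSys} {d : QQ → ℝ} (hd : Continuous d)
    (h01 : ∀ x, 0 ≤ d x ∧ d x ≤ 1 / 2) (hz : ∀ x, d x = 0 ↔ x ∈ Phi B) :
    ∃ δ : ℝ, 0 < δ ∧ δ ≤ 1 ∧ ∀ x : QQ, d x < δ → (x 1 : VV) ≠ 0 := by
  have hDD : CompactSpace DD := isCompact_iff_compactSpace.mp (isCompact_closedBall _ _)
  have hQQ : CompactSpace QQ := Pi.compactSpace
  have hK : IsCompact {x : QQ | (x 1 : VV) = 0} := by
    refine IsClosed.isCompact ?_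
    exact isClosed_eq (continuous_subtype_val.comp (continuous_apply 1)) continuous_const
  have hne : {x : QQ | (x 1 : VV) = 0}.Nonempty :=
    ⟨fun _ => ⟨0, by simp⟩, rfl⟩
  obtain ⟨x0, hx0, hmin⟩ := hK.exists_isMinOn hne hd.continuousOn
  have hpos : 0 < d x0 := by
    rcases (h01 x0).1.lt_or_eq with h | h
    · exact h
    · exfalso
      have h1 := (hz x0).mp h.symm 1
      have h2 : (x0 1 : VV) = 0 := hx0
      rw [h2] at h1
      exact quart_ne_zero _ h1.symm
  refine ⟨d x0, hpos, (h01 x0).2.trans (by norm_num), fun x hx h0 => ?_⟩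
  have h1 : d x0 ≤ d x := hmin h0
  exact absurd hx (not_lt.mpr h1)

private theorem nonvan_aux {d : QQ → ℝ}
    (h01 : ∀ x, 0 ≤ d x ∧ d x ≤ 1 / 2) {δ : ℝ} (hδ1 : δ ≤ 1)
    (hδ : ∀ x : QQ, d x < δ → (x 1 : VV) ≠ 0) (w : PM) (hw : w ∈ Set.range (qm d)) (α : ℝ)
    (hα : 0 < α) (hαδ : α ≤ δ)
    (h : w.1 * Circle.exp (2 * Real.pi * w.2.1) = Circle.exp α) : w.2.2 1 ≠ 0 := by
  obtain ⟨⟨s, x⟩, rfl⟩ := hw
  have hs0 : 0 ≤ (s : ℝ) := s.2.1
  have hs1 : (s : ℝ) ≤ 1 := s.2.2
  have hd0 := (h01 x).1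
  have hd1 := (h01 x).2
  have hpi := Real.pi_gt_three
  have hpi0 : (0 : ℝ) < 2 * Real.pi := by positivity
  have h1 : (qm d (s, x)).1 = Circle.exp (2 * Real.pi * (s : ℝ)) := rfl
  have h2 : (qm d (s, x)).2.1 = d x * (1 - (s : ℝ)) := rfl
  rw [h1, h2, ← Circle.exp_add] at h
  set t : ℝ := (s : ℝ) + d x * (1 - (s : ℝ)) with ht
  have h3 : 2 * Real.pi * (s : ℝ) + 2 * Real.pi * (d x * (1 - (s : ℝ))) = 2 * Real.pi * t := by
    rw [ht]; ring
  rw [h3] at h
  have ht0 : 0 ≤ t := by
    have : 0 ≤ d x * (1 - (s : ℝ)) := mul_nonneg hd0 (by linarith)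
    linarith
  have ht1 : t ≤ 1 := by
    have : d x * (1 - (s : ℝ)) ≤ 1 * (1 - (s : ℝ)) :=
      mul_le_mul_of_nonneg_right (by linarith) (by linarith)
    linarith
  obtain ⟨k, hk⟩ := Circle.exp_eq_exp.mp h
  have hk2 : t - α / (2 * Real.pi) = k := by
    have : 2 * Real.pi * t = 2 * Real.pi * (α / (2 * Real.pi) + k) := by
      rw [hk]
      field_simp
    have := mul_left_cancel₀ hpi0.ne' this
    linarith
  have hα1 : α / (2 * Real.pi) ≤ α / 6 := div_le_div_of_nonneg_left hα.le (by norm_num) (by linarith)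
  have hα0 : 0 < α / (2 * Real.pi) := by positivity
  have hα6 : α / 6 < 1 := by linarith
  have hk0 : k = 0 := by
    have e1 : (-1 : ℝ) < k := by rw [← hk2]; linarith
    have e2 : (k : ℝ) < 1 := by rw [← hk2]; linarith
    have e3 : (-1 : ℤ) < k := by exact_mod_cast e1
    have e4 : k < (1 : ℤ) := by exact_mod_cast e2
    omega
  have htα : t = α / (2 * Real.pi) := by
    rw [hk0] at hk2
    push_cast at hk2
    linarith
  have hs6 : (s : ℝ) ≤ 1 / 6 := by
    have : 0 ≤ d x * (1 - (s : ℝ)) := mul_nonneg hd0 (by linarith)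
    linarith
  have hdx : d x < δ := by
    have e1 : d x * (1 - 1 / 6) ≤ d x * (1 - (s : ℝ)) :=
      mul_le_mul_of_nonneg_left (by linarith) hd0
    linarith
  have hx1 := hδ x hdx
  show (‖((zC (s, x) : Circle) : ℂ) - 1‖ + eC d (s, x)) • (x 1 : VV) ≠ 0
  refine smul_ne_zero ?_ hx1
  intro h0
  have e1 : 0 ≤ eC d (s, x) := mul_nonneg hd0 (by
    show (0 : ℝ) ≤ 1 - (s : ℝ)
    linarith)
  have e2 : ‖((zC (s, x) : Circle) : ℂ) - 1‖ = 0 := by
    have := norm_nonneg (((zC (s, x) : Circle) : ℂ) - 1)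
    linarith
  have e3 : eC d (s, x) = 0 := by linarith
  have e4 : zC (s, x) = 1 := by
    apply Circle.ext
    rw [norm_eq_zero] at e2
    rw [Circle.coe_one]
    exact sub_eq_zero.mp e2
  have e5 : Circle.exp (2 * Real.pi * (s : ℝ)) = 1 := e4
  have e6 : d x * (1 - (s : ℝ)) = 0 := e3
  have e7 : t = (s : ℝ) := by rw [ht, e6, add_zero]
  obtain ⟨k', hk'⟩ := Circle.exp_eq_exp.mp (e5.trans Circle.exp_zero.symm)
  have e8 : (s : ℝ) = k' := by
    have : 2 * Real.pi * (s : ℝ) = 2 * Real.pi * k' := by rw [hk']; ring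
    exact mul_left_cancel₀ hpi0.ne' this
  have e9 : (0 : ℝ) < k' := by rw [← e8, ← e7, htα]; exact hα0
  have e10 : (k' : ℝ) < 1 := by rw [← e8]; linarith
  have e11 : (0 : ℤ) < k' := by exact_mod_cast e9
  have e12 : k' < (1 : ℤ) := by exact_mod_cast e10
  omega

theorem exists_fib : Nonempty Fib := by
  obtain ⟨B⟩ := exists_bondSys
  obtain ⟨d, hd, h01, hz, hinv⟩ := exists_dist B
  obtain ⟨δ, hδ0, hδ1, hδ⟩ := exists_delta hd h01 hz
  have hDD : CompactSpace DD := isCompact_iff_compactSpace.mp (isCompact_closedBall _ _)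
  have hPP : CompactSpace (PP d) := compactSpace_PP hd
  exact ⟨{
    F := PP d × QP
    act := fun a w => (⟨actPM a w.1.1, actPM_mem hinv a _ w.1.2⟩, w.2)
    act_zero := fun w => Prod.ext (Subtype.ext (actPM_zero _)) rfl
    act_add := fun a b w => Prod.ext (Subtype.ext (actPM_add a b _)) rfl
    act_cont := by
      refine Continuous.prodMk (Continuous.subtype_mk ?_ _) (by fun_prop)
      exact continuous_actPM.comp (Continuous.prodMk continuous_fst
        (continuous_subtype_val.comp (continuous_fst.comp continuous_snd)))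
    th := fun w => w.1.1.1
    th_cont := continuous_fst.comp (continuous_subtype_val.comp continuous_fst)
    th_inv := fun _ _ => rfl
    vth := fun w => 2 * Real.pi * w.1.1.2.1
    vth_cont := continuous_const.mul
      (continuous_fst.comp (continuous_snd.comp (continuous_subtype_val.comp continuous_fst)))
    vth_inv := fun _ _ => rfl
    Psi := fun b w => if b = 0 then (w.1.1.2.2 1).1 else (w.1.1.2.2 1).2
    Psi_cont := by
      intro b
      have h1 : Continuous fun w : PP d × QP => w.1.1.2.2 1 :=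
        (continuous_apply 1).comp (continuous_snd.comp (continuous_snd.comp
          (continuous_subtype_val.comp continuous_fst)))
      by_cases hb : b = 0
      · simp only [hb, if_true]
        exact continuous_fst.comp h1
      · simp only [hb, if_false]
        exact continuous_snd.comp h1
    Psi_eqv := by
      intro a b w
      by_cases hb : b = 0
      · simp only [hb, if_true]
        rfl
      · simp only [hb, if_false]
        rfl
    δ0 := δ
    δ0_pos := hδ0
    δ0_le := hδ1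
    nonvan := by
      intro w α hα hαδ h
      have h1 := nonvan_aux h01 hδ1 hδ w.1.1 w.1.2 α hα hαδ h
      by_contra hcon
      push Not at hcon
      apply h1
      have h2 := hcon 0
      have h3 := hcon 1
      simp only [if_true] at h2
      simp only [one_ne_zero, if_false] at h3
      exact Prod.ext h2 h3
    geo := fun ε hε => exists_geo B hd (fun x => (h01 x).1) hz ε hε }⟩

end Pool.Agent.MQ
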