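import Pool.Agent.Lib.MP_9c87eb_gt.GoodE
import Pool.Agent.Lib.MP_9c87eb_gt.Mg.G012

/-! TASK K3: from functions on `EE × UI` to finite stages.

By uniform continuity (compactness of `EE × UI`, product topology) there is `k ≥ 1` such that
`|pos (e, u) - pos (e', u)| ≤ η/2` and `‖Ψ b (e, u) - Ψ b (e', u)‖ ≤ κ/2` whenever `e j = e' j` for
all `j ≤ k`. `(tauK k)^[i] e` and `tau^[i] e` agree in the coordinates `j ≤ k`. Let `n = NN k`,
`ζ = zt 4`, `pos' (e, u) = (1/n) ∑_{i<n} pos ((tauK k)^[i] e, u)`,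
`Ψ' b (e, u) = (1/n) ∑_{i<n} ζ⁻¹ ^ i * Ψ b ((tauK k)^[i] e, u)`. They are exactly
(equi)variant for `tauK k` (`tauK_iter`, `ζ ^ n = 1`), `|pos' - pos| ≤ η/2`,
`‖Ψ' b - Ψ b‖ ≤ κ/2 + κ < 3κ`. Now `det_sep` (with `c = 2 ^ k`, `c0 = 2`, `a = 2`) and `good_tauK k`
give `NN k - 1 < 2 * 2 ^ (2 ^ k - 2)`, which is false (`2 ^ k ≥ 2`). -/

set_option autoImplicit false

namespace Pool.Agent.MQ

open Set Topology
open Pool.Agent.CRC (UI SB zt ztC S3 rot Good)

/-- uniform continuity in the product topology -/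
private theorem transfer_unif {Y : Type} [MetricSpace Y] (F : EE × UI → Y) (hF : Continuous F)
    (ε : ℝ) (hε : 0 < ε) : ∃ k0 : ℕ, ∀ k, k0 ≤ k → ∀ (e e' : EE) (u : UI),
      (∀ j, j ≤ k → e j = e' j) → dist (F (e, u)) (F (e', u)) < ε := by
  by_contra hcon
  push Not at hcon
  choose k hk e e' u hag hd using hcon
  let g : ℕ → EE × EE × UI := fun n => (e n, e' n, u n)
  let 𝒰 : Ultrafilter ℕ := Ultrafilter.of Filter.atTop
  have h𝒰 : (𝒰 : Filter ℕ) ≤ Filter.atTop := Ultrafilter.of_le _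
  have hlim : Filter.Tendsto g 𝒰 (nhds (𝒰.map g).lim) := (𝒰.map g).le_nhds_lim
  set L := (𝒰.map g).lim with hL
  have h1 : Filter.Tendsto (fun n => (g n).1) 𝒰 (nhds L.1) :=
    (continuous_fst.tendsto L).comp hlim
  have h2 : Filter.Tendsto (fun n => (g n).2.1) 𝒰 (nhds L.2.1) :=
    ((continuous_fst.comp continuous_snd).tendsto L).comp hlim
  have h3 : Filter.Tendsto (fun n => (g n).2.2) 𝒰 (nhds L.2.2) :=
    ((continuous_snd.comp continuous_snd).tendsto L).comp hlim
  have hLe : L.1 = L.2.1 := by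
    funext j
    have h4 : Filter.Tendsto (fun n => (g n).1 j) 𝒰 (nhds (L.1 j)) :=
      ((continuous_apply j).tendsto L.1).comp h1
    have h5 : Filter.Tendsto (fun n => (g n).2.1 j) 𝒰 (nhds (L.2.1 j)) :=
      ((continuous_apply j).tendsto L.2.1).comp h2
    refine tendsto_nhds_unique h4 (Filter.Tendsto.congr' ?_ h5)
    have h6 : ∀ᶠ n in (𝒰 : Filter ℕ), j ≤ n := h𝒰 (Filter.eventually_ge_atTop j)
    filter_upwards [h6] with n hn
    exact (hag n j (hn.trans (hk n))).symm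
  have h7 : Filter.Tendsto (fun n => F ((g n).1, (g n).2.2)) 𝒰 (nhds (F (L.1, L.2.2))) :=
    (hF.tendsto _).comp (h1.prodMk_nhds h3)
  have h8 : Filter.Tendsto (fun n => F ((g n).2.1, (g n).2.2)) 𝒰 (nhds (F (L.1, L.2.2))) := by
    rw [hLe] at *
    exact (hF.tendsto _).comp (h2.prodMk_nhds h3)
  have h9 := h7.dist h8
  rw [dist_self] at h9
  have h10 : ε ≤ 0 := ge_of_tendsto h9 (Filter.Eventually.of_forall fun n => hd n)
  linarith

private theorem transfer_iter (k : ℕ) (i : ℕ) (e : EE) (j : ℕ) (hj : j ≤ k) :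
    ((tauK k)^[i] e) j = (tau^[i] e) j := by
  induction i generalizing e with
  | zero => rfl
  | succ i ih =>
    have h1 : ∀ (i : ℕ) (e : EE), (tau^[i] e) j = (cS (ztC (NN j)))^[i] (e j) := by
      intro i
      induction i with
      | zero => intro e; rfl
      | succ i ih' =>
        intro e
        rw [Function.iterate_succ_apply, ih', Function.iterate_succ_apply]
        rfl
    rw [Function.iterate_succ_apply, Function.iterate_succ_apply, ih, h1, h1]
    have h2 : tauK k e j = tau e j := by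
      unfold tauK tau
      rw [if_pos hj]
    rw [h2]

private theorem transfer_sum_shift {M : Type} [AddCommGroup M] (N : ℕ) (f : ℕ → M)
    (h : f N = f 0) : ∑ i ∈ Finset.range N, f (i + 1) = ∑ i ∈ Finset.range N, f i := by
  have h1 := Finset.sum_range_succ f N
  have h2 := Finset.sum_range_succ' f N
  rw [h1, h] at h2
  exact (add_right_cancel h2).symm

private theorem transfer_zt_pow (k : ℕ) (hk : 1 ≤ k) : zt 4 ^ NN k = 1 := by
  have h4 : zt 4 ^ 4 = 1 := by
    have := CRC.ztC_pow_self 4 (by norm_num)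
    have h2 := congrArg (fun c : Circle => (c : ℂ)) this
    simp only [Circle.coe_pow, CRC.coe_ztC3, Circle.coe_one] at h2
    exact h2
  have hd : 4 ∣ NN k := by
    unfold NN
    have h2k : 2 ≤ 2 ^ k := by
      calc 2 = 2 ^ 1 := rfl
        _ ≤ 2 ^ k := Nat.pow_le_pow_right (by norm_num) hk
    exact (pow_dvd_pow 2 h2k : 2 ^ 2 ∣ 2 ^ 2 ^ k)
  obtain ⟨r, hr⟩ := hd
  rw [hr, pow_mul, h4, one_pow]

private theorem transfer_norm_zt (i : ℕ) : ‖zt 4 ^ i‖ = 1 := by
  rw [norm_pow, ← CRC.coe_ztC3, Circle.norm_coe, one_pow]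

theorem transfer (pos : EE × UI → ℝ) (hpos : Continuous pos)
    (hinv : ∀ e u, pos (tau e, u) = pos (e, u)) (Ψ : Fin 2 → EE × UI → ℂ)
    (hΨ : ∀ b, Continuous (Ψ b)) (δ η κ : ℝ) (hη : 0 < η) (hκ : 0 < κ)
    (happ : ∀ (i : ℕ) b e u, ‖Ψ b (tau^[i] e, u) - zt 4 ^ i * Ψ b (e, u)‖ ≤ κ)
    (hnon : ∀ e u, |pos (e, u) - δ| ≤ η → ∃ b, 3 * κ ≤ ‖Ψ b (e, u)‖)
    (h0 : ∀ e, pos (e, 0) < δ - η) (h1 : ∀ e, δ + η < pos (e, 1)) : False := by
  -- the level
  obtain ⟨k1, hk1⟩ := transfer_unif pos hpos (η / 2) (by positivity)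
  obtain ⟨k2, hk2⟩ := transfer_unif (Ψ 0) (hΨ 0) (κ / 2) (by positivity)
  obtain ⟨k3, hk3⟩ := transfer_unif (Ψ 1) (hΨ 1) (κ / 2) (by positivity)
  set k := max 1 (max k1 (max k2 k3)) with hkdef
  have hk : 1 ≤ k := le_max_left _ _
  have hpk := hk1 k ((le_max_left _ _).trans (le_max_right _ _))
  have hΨk : ∀ (b : Fin 2) (e e' : EE) (u : UI), (∀ j, j ≤ k → e j = e' j) →
      dist (Ψ b (e, u)) (Ψ b (e', u)) < κ / 2 := by
    intro b
    fin_cases b
    · exact hk2 k (((le_max_left _ _).trans (le_max_right _ _)).trans (le_max_right _ _))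
    · exact hk3 k (((le_max_right _ _).trans (le_max_right _ _)).trans (le_max_right _ _))
  set N := NN k with hN
  have hNpos : 0 < N := NN_pos k
  have hN0 : (N : ℝ) ≠ 0 := by exact_mod_cast hNpos.ne'
  have hNC : (N : ℂ) ≠ 0 := by exact_mod_cast hNpos.ne'
  set ζ := zt 4 with hζ
  have hζ0 : ζ ≠ 0 := by
    intro h
    have := transfer_norm_zt 1
    rw [pow_one, ← hζ, h, norm_zero] at this
    exact zero_ne_one this
  have hiterN : ∀ e, (tauK k)^[N] e = e := fun e => by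
    have := congrFun (tauK_iter k) e
    exact this
  -- iterates are continuous
  have hci : ∀ i, Continuous ((tauK k)^[i]) := fun i => (continuous_tauK k).iterate i
  -- averages
  let pos' : EE × UI → ℝ := fun w => (N : ℝ)⁻¹ * ∑ i ∈ Finset.range N, pos ((tauK k)^[i] w.1, w.2)
  let Ψ' : Fin 2 → EE × UI → ℂ := fun b w =>
    (N : ℂ)⁻¹ * ∑ i ∈ Finset.range N, (ζ ^ i)⁻¹ * Ψ b ((tauK k)^[i] w.1, w.2)
  have hpos' : Continuous pos' := by
    refine continuous_const.mul (continuous_finsetSum _ fun i _ => ?_)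
    exact hpos.comp (((hci i).comp continuous_fst).prodMk continuous_snd)
  have hΨ' : ∀ b, Continuous (Ψ' b) := by
    intro b
    refine continuous_const.mul (continuous_finsetSum _ fun i _ => ?_)
    exact continuous_const.mul ((hΨ b).comp (((hci i).comp continuous_fst).prodMk continuous_snd))
  have hinv' : ∀ e u, pos' (tauK k e, u) = pos' (e, u) := by
    intro e u
    show (N : ℝ)⁻¹ * ∑ i ∈ Finset.range N, pos ((tauK k)^[i] (tauK k e), u) =
      (N : ℝ)⁻¹ * ∑ i ∈ Finset.range N, pos ((tauK k)^[i] e, u)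
    congr 1
    rw [← transfer_sum_shift N (fun i => pos ((tauK k)^[i] e, u)) (by simp only [hiterN]; rfl)]
    rfl
  have hΨinv : ∀ b e u, Ψ' b (tauK k e, u) = zt (2 ^ 2) * Ψ' b (e, u) := by
    intro b e u
    show (N : ℂ)⁻¹ * ∑ i ∈ Finset.range N, (ζ ^ i)⁻¹ * Ψ b ((tauK k)^[i] (tauK k e), u) =
      zt (2 ^ 2) * ((N : ℂ)⁻¹ * ∑ i ∈ Finset.range N, (ζ ^ i)⁻¹ * Ψ b ((tauK k)^[i] e, u))
    have hz : zt (2 ^ 2) = ζ := by rw [hζ]; norm_num
    rw [hz, mul_left_comm]
    congr 1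
    rw [← transfer_sum_shift N (fun i => (ζ ^ i)⁻¹ * Ψ b ((tauK k)^[i] e, u))
      (by simp only [hiterN, pow_zero, Function.iterate_zero, id_eq]
          rw [transfer_zt_pow k hk]), Finset.mul_sum]
    refine Finset.sum_congr rfl fun i _ => ?_
    rw [pow_succ, mul_inv, Function.iterate_succ_apply]
    field_simp
  have hclose : ∀ e u, |pos' (e, u) - pos (e, u)| ≤ η / 2 := by
    intro e u
    have h1 : pos' (e, u) - pos (e, u) =
        (N : ℝ)⁻¹ * ∑ i ∈ Finset.range N, (pos ((tauK k)^[i] e, u) - pos (e, u)) := by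
      show (N : ℝ)⁻¹ * ∑ i ∈ Finset.range N, pos ((tauK k)^[i] e, u) - pos (e, u) = _
      rw [Finset.sum_sub_distrib, Finset.sum_const, Finset.card_range, nsmul_eq_mul]
      field_simp
    rw [h1, abs_mul, abs_of_nonneg (by positivity : (0 : ℝ) ≤ (N : ℝ)⁻¹)]
    have h2 : |∑ i ∈ Finset.range N, (pos ((tauK k)^[i] e, u) - pos (e, u))| ≤ N * (η / 2) := by
      refine (Finset.abs_sum_le_sum_abs _ _).trans ?_
      calc ∑ i ∈ Finset.range N, |pos ((tauK k)^[i] e, u) - pos (e, u)|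
          ≤ ∑ _i ∈ Finset.range N, η / 2 := by
            refine Finset.sum_le_sum fun i _ => ?_
            have h3 : ∀ i, pos (tau^[i] e, u) = pos (e, u) := by
              intro i
              induction i with
              | zero => rfl
              | succ i ih => rw [Function.iterate_succ_apply', hinv, ih]
            rw [← h3 i]
            have := hpk ((tauK k)^[i] e) (tau^[i] e) u (fun j hj => transfer_iter k i e j hj)
            rw [Real.dist_eq] at this
            exact this.le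
        _ = N * (η / 2) := by rw [Finset.sum_const, Finset.card_range, nsmul_eq_mul]
    calc (N : ℝ)⁻¹ * |∑ i ∈ Finset.range N, (pos ((tauK k)^[i] e, u) - pos (e, u))|
        ≤ (N : ℝ)⁻¹ * (N * (η / 2)) := by gcongr
      _ = η / 2 := by field_simp
  have hΨclose : ∀ b e u, ‖Ψ' b (e, u) - Ψ b (e, u)‖ ≤ 3 / 2 * κ := by
    intro b e u
    have h1 : Ψ' b (e, u) - Ψ b (e, u) =
        (N : ℂ)⁻¹ * ∑ i ∈ Finset.range N, ((ζ ^ i)⁻¹ * Ψ b ((tauK k)^[i] e, u) - Ψ b (e, u)) := by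
      show (N : ℂ)⁻¹ * ∑ i ∈ Finset.range N, (ζ ^ i)⁻¹ * Ψ b ((tauK k)^[i] e, u) - Ψ b (e, u) = _
      rw [Finset.sum_sub_distrib, Finset.sum_const, Finset.card_range, nsmul_eq_mul]
      field_simp
    rw [h1, norm_mul, norm_inv, Complex.norm_natCast]
    have h2 : ‖∑ i ∈ Finset.range N, ((ζ ^ i)⁻¹ * Ψ b ((tauK k)^[i] e, u) - Ψ b (e, u))‖ ≤
        N * (3 / 2 * κ) := by
      refine (norm_sum_le _ _).trans ?_
      calc ∑ i ∈ Finset.range N, ‖(ζ ^ i)⁻¹ * Ψ b ((tauK k)^[i] e, u) - Ψ b (e, u)‖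
          ≤ ∑ _i ∈ Finset.range N, 3 / 2 * κ := by
            refine Finset.sum_le_sum fun i _ => ?_
            have h3 : (ζ ^ i)⁻¹ * Ψ b ((tauK k)^[i] e, u) - Ψ b (e, u) =
                (ζ ^ i)⁻¹ * (Ψ b ((tauK k)^[i] e, u) - ζ ^ i * Ψ b (e, u)) := by
              have : ζ ^ i ≠ 0 := pow_ne_zero _ hζ0
              field_simp
            rw [h3, norm_mul, norm_inv, transfer_norm_zt, inv_one, one_mul]
            have h4 := hΨk b ((tauK k)^[i] e) (tau^[i] e) u (fun j hj => transfer_iter k i e j hj)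
            rw [dist_eq_norm] at h4
            have h5 := happ i b e u
            calc ‖Ψ b ((tauK k)^[i] e, u) - ζ ^ i * Ψ b (e, u)‖
                ≤ ‖Ψ b ((tauK k)^[i] e, u) - Ψ b (tau^[i] e, u)‖ +
                  ‖Ψ b (tau^[i] e, u) - ζ ^ i * Ψ b (e, u)‖ := norm_sub_le_norm_sub_add_norm_sub _ _ _
              _ ≤ 3 / 2 * κ := by linarith
        _ = N * (3 / 2 * κ) := by rw [Finset.sum_const, Finset.card_range, nsmul_eq_mul]
    calc (N : ℝ)⁻¹ * ‖∑ i ∈ Finset.range N, ((ζ ^ i)⁻¹ * Ψ b ((tauK k)^[i] e, u) - Ψ b (e, u))‖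
        ≤ (N : ℝ)⁻¹ * (N * (3 / 2 * κ)) := by gcongr
      _ = 3 / 2 * κ := by field_simp
  have hfin := CRC.det_sep (continuous_tauK k) (c := 2 ^ k) (m := NN k - 1) (tauK_iter k)
    (good_tauK k) (c0 := 2)
    (by calc 2 = 2 ^ 1 := rfl
          _ ≤ 2 ^ k := Nat.pow_le_pow_right (by norm_num) hk)
    pos' hpos' hinv' δ
    (fun e => by
      have h3 := (abs_le.1 (hclose e 0)).2
      have h4 := h0 e
      linarith)
    (fun e => by
      have h3 := (abs_le.1 (hclose e 1)).1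
      have h4 := h1 e
      linarith)
    Ψ' hΨ' hΨinv
    (fun w hw => by
      obtain ⟨e, u⟩ := w
      have h3 : |pos (e, u) - δ| ≤ η := by
        have := hclose e u
        rw [hw, abs_sub_comm] at this
        linarith
      obtain ⟨b, hb⟩ := hnon e u h3
      refine ⟨b, fun h4 => ?_⟩
      have h5 := hΨclose b e u
      rw [h4, zero_sub, norm_neg] at h5
      linarith)
  have h2k : 2 ≤ 2 ^ k := by
    calc 2 = 2 ^ 1 := rfl
      _ ≤ 2 ^ k := Nat.pow_le_pow_right (by norm_num) hk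
  obtain ⟨r, hr⟩ := Nat.exists_eq_add_of_le h2k
  unfold NN at hfin
  rw [hr] at hfin
  have e1 : 2 + r - 2 = r := by omega
  rw [e1, pow_add] at hfin
  have : 0 < 2 ^ r := by positivity
  omega

end Pool.Agent.MQ
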