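import Pool.Agent.Lib.MP_9c87eb_gt.Mg.G010
import Pool.Agent.Lib.MP_9c87eb_gt.Transfer
import Pool.Agent.Lib.MP_9c87eb_gt.Mg.G001

/-! TASK F4b: the contradiction.

Let `(κ, r)` be as in `exists_consts`, `δ = δ0/2`, `η = δ0/8`. Choose `ε` such that `‖y - y'‖ < ε` implies
`‖θ y - θ y'‖`, `|vt y - vt y'|` so small that
`θ y/‖θ y‖ * exp(i vt y)` and `th x * exp(i vth x)` are `r`-close if `y' = jj (J (e, x))` (`θ y' = th x`
has norm `1`), and `‖Ps b (e, y) - Ps b (e, y')‖ ≤ κ/2`. Take `(s, w)` for this `ε`, `R > 0` with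
`|w| + |vt ∘ s| ≤ R - 2` (`EE × Circle` is compact), `t u = -R + 2 R u`, `z u = Circle.exp (t u)`, and apply
`transfer` to `pos (e, u) = t u + w (e, z u) + vt (s (e, z u))`, `Ψ b (e, u) = Ps b (e, s (e, z u))`, `κ`.
`Circle.exp (pos) = z * exp w * exp (vt s) = θ(s)/‖θ(s)‖ * exp(vt s)`, so `hnon` follows from
`exists_consts` (`‖Ps b (e, s)‖ ≥ 4κ - κ/2`).
`happ`: if `x` is as in the nearness condition for `(e, z)` then `J (tau^[i] e, act i x) = J (e, x)`
(`tau_iterate`, `J_eq`), `Psi b (act i x) = ztC 4 ^ i * Psi b x` (`Psi_eqv`, `chr_natCast`, `NN 1 = 4`,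
`CRC.coe_ztC3`). -/

set_option autoImplicit false

namespace Pool.Agent.MQ

open Set Topology Uniformity
open Pool.Agent.CRC (UI SB zt ztC S3 rot Good)

private theorem unif_snd {α β γ : Type} [UniformSpace α] [UniformSpace β] [UniformSpace γ]
    {f : α × β → γ} (hf : UniformContinuous f) {s : Set (γ × γ)} (hs : s ∈ 𝓤 γ) :
    ∃ v ∈ 𝓤 β, ∀ a b b', (b, b') ∈ v → (f (a, b), f (a, b')) ∈ s := by
  rw [UniformContinuous, uniformity_prod_eq_prod, Filter.tendsto_map'_iff] at hf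
  rcases Filter.mem_prod_iff.1 (Filter.mem_map.1 <| hf hs) with ⟨u, hu, v, hv, huvt⟩
  exact ⟨v, hv, fun a b b' hbb' => @huvt ((_, _), (_, _)) ⟨refl_mem_uniformity hu, hbb'⟩⟩

private theorem dist_circle_exp (a b : ℝ) : dist (Circle.exp a) (Circle.exp b) ≤ |a - b| := by
  have h1 : dist (Circle.exp a) (Circle.exp b) =
      ‖Complex.exp (Complex.I * ((a - b : ℝ) : ℂ)) - 1‖ := by
    change dist ((Circle.exp a : Circle) : ℂ) ((Circle.exp b : Circle) : ℂ) = _
    rw [Circle.coe_exp, Circle.coe_exp, dist_eq_norm]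
    have h2 : Complex.exp (↑a * Complex.I) - Complex.exp (↑b * Complex.I) =
        Complex.exp (↑b * Complex.I) * (Complex.exp (Complex.I * ((a - b : ℝ) : ℂ)) - 1) := by
      rw [mul_sub, ← Complex.exp_add, mul_one]
      congr 2
      push_cast
      ring
    rw [h2, norm_mul, Complex.norm_exp_ofReal_mul_I, one_mul]
  rw [h1, ← Real.norm_eq_abs]
  exact Real.norm_exp_I_mul_ofReal_sub_one_le

/-- a unit vector, a positive multiple of which is close to a unit vector, is close to it -/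
private theorem near_unit {ρ r : ℝ} {u v : ℂ} (hρ : 0 ≤ ρ) (hu : ‖u‖ = 1) (hv : ‖v‖ = 1)
    (h : ‖(ρ : ℂ) * u - v‖ < r) : ‖u - v‖ < 2 * r := by
  have h1 : ‖(ρ : ℂ) * u‖ = ρ := by
    rw [norm_mul, hu, mul_one, Complex.norm_real, Real.norm_of_nonneg hρ]
  have h2 : |ρ - 1| < r := by
    have := abs_norm_sub_norm_le ((ρ : ℂ) * u) v
    rw [h1, hv] at this
    exact this.trans_lt h
  have h3 : ‖u - (ρ : ℂ) * u‖ = |ρ - 1| := by
    have : u - (ρ : ℂ) * u = ((1 - ρ : ℝ) : ℂ) * u := by push_cast; ring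
    rw [this, norm_mul, hu, mul_one, Complex.norm_real, Real.norm_eq_abs, abs_sub_comm]
  have h4 : ‖u - v‖ ≤ ‖u - (ρ : ℂ) * u‖ + ‖(ρ : ℂ) * u - v‖ := norm_sub_le_norm_sub_add_norm_sub _ _ _
  linarith

private theorem dist_mul_le (a b c d : Circle) : dist (a * b) (c * d) ≤ dist a c + dist b d := by
  change dist ((a * b : Circle) : ℂ) ((c * d : Circle) : ℂ) ≤
    dist (a : ℂ) (c : ℂ) + dist (b : ℂ) (d : ℂ)
  simp only [Circle.coe_mul, dist_eq_norm]
  have h : (a : ℂ) * b - c * d = ((a : ℂ) - c) * b + c * (b - d) := by ring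
  rw [h]
  refine (norm_add_le _ _).trans ?_
  rw [norm_mul, norm_mul, Circle.norm_coe, Circle.norm_coe, mul_one, one_mul]

theorem fin_contra (𝔽 : Fib) (S : Setup 𝔽)
    (h : ∀ ε : ℝ, 0 < ε → ∃ (s : C(EE × Circle, EB)) (w : C(EE × Circle, ℝ)),
      (∀ e z, s (tau e, z) = s (e, z)) ∧
      (∀ e z, w (tau e, z) = w (e, z)) ∧ (∀ e z, ∃ x, ‖s (e, z) - jj (S.J (e, x))‖ < ε) ∧
      ∀ e z, S.θ (s (e, z)) ≠ 0 ∧
        S.θ (s (e, z)) = (‖S.θ (s (e, z))‖ : ℂ) * ((z : ℂ) * (Circle.exp (w (e, z)) : ℂ))) :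
    False := by
  obtain ⟨κ, r, hκ, hr, hcon⟩ := exists_consts 𝔽
  have hδ0 := 𝔽.δ0_pos
  have hδ1 := 𝔽.δ0_le
  -- choice of ε
  obtain ⟨ε1, hε1, hθ⟩ := Metric.uniformContinuous_iff.1 S.θ_uc (r / 4) (by positivity)
  obtain ⟨ε2, hε2, hvt⟩ := Metric.uniformContinuous_iff.1 S.vt_uc (r / 4) (by positivity)
  have hPs : ∀ b, ∃ ε3 : ℝ, 0 < ε3 ∧ ∀ e y y', ‖y - y'‖ < ε3 →
      ‖S.Ps b (e, y) - S.Ps b (e, y')‖ < κ / 2 := by
    intro b
    obtain ⟨v, hv, hv'⟩ := unif_snd (S.Ps_uc b)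
      (Metric.dist_mem_uniformity (α := ℂ) (show 0 < κ / 2 by positivity))
    obtain ⟨ε3, hε3, h3⟩ := Metric.mem_uniformity_dist.1 hv
    refine ⟨ε3, hε3, fun e y y' hyy' => ?_⟩
    have := hv' e y y' (h3 (by rwa [dist_eq_norm]))
    simpa only [Set.mem_ofPred_eq, dist_eq_norm] using this
  choose ε3 hε3 hPs using hPs
  set ε : ℝ := min (min ε1 ε2) (min (ε3 0) (ε3 1)) with hε
  have hε0 : 0 < ε := lt_min (lt_min hε1 hε2) (lt_min (hε3 0) (hε3 1))
  have hεθ : ε ≤ ε1 := (min_le_left _ _).trans (min_le_left _ _)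
  have hεv : ε ≤ ε2 := (min_le_left _ _).trans (min_le_right _ _)
  have hεP : ∀ b, ε ≤ ε3 b := by
    intro b
    fin_cases b
    · exact (min_le_right _ _).trans (min_le_left _ _)
    · exact (min_le_right _ _).trans (min_le_right _ _)
  obtain ⟨s, w, hs, hw, hnear, hθs⟩ := h ε hε0
  -- bound
  have hcont : Continuous fun p : EE × Circle => w p + S.vt (s p) :=
    w.continuous.add (S.vt_uc.continuous.comp s.continuous)
  obtain ⟨C, hC⟩ := (isCompact_range hcont).isBounded.exists_norm_le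
  have hC' : ∀ p : EE × Circle, |w p + S.vt (s p)| ≤ max C 0 := by
    intro p
    have := hC _ (Set.mem_range_self p)
    rw [Real.norm_eq_abs] at this
    exact this.trans (le_max_left _ _)
  set R : ℝ := max C 0 + 2 with hR
  have hR0 : 0 ≤ max C 0 := le_max_right _ _
  set t : UI → ℝ := fun u => -R + 2 * R * (u : ℝ) with ht
  have htc : Continuous t := by
    rw [ht]; fun_prop
  set z : UI → Circle := fun u => Circle.exp (t u) with hz
  have hzc : Continuous z := Circle.exp.continuous.comp htc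
  have hpz : Continuous fun p : EE × UI => (p.1, z p.2) :=
    continuous_fst.prodMk (hzc.comp continuous_snd)
  have hsit : ∀ (i : ℕ) (e : EE) (z : Circle), s (tau^[i] e, z) = s (e, z) := by
    intro i
    induction i with
    | zero => intro e z; rfl
    | succ i ih =>
      intro e z
      rw [Function.iterate_succ_apply, ih, hs]
  refine transfer (fun p => t p.2 + (w (p.1, z p.2) + S.vt (s (p.1, z p.2)))) ?_ ?_
    (fun b p => S.Ps b (p.1, s (p.1, z p.2))) ?_ (𝔽.δ0 / 2) (𝔽.δ0 / 8) κ (by positivity) hκ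
    ?_ ?_ ?_ ?_
  · exact (htc.comp continuous_snd).add (hcont.comp hpz)
  · intro e u
    simp only [hs, hw]
  · intro b
    exact (S.Ps_uc b).continuous.comp (continuous_fst.prodMk (s.continuous.comp hpz))
  · intro i b e u
    simp only [hsit]
    obtain ⟨x, hx⟩ := hnear e (z u)
    have hJ : S.J (tau^[i] e, 𝔽.act (i : ℤ_[2]) x) = S.J (e, x) := by
      rw [eq_comm, S.J_eq]
      exact ⟨(i : ℤ_[2]), (tau_iterate i e).symm, rfl⟩
    have h1 : ‖S.Ps b (tau^[i] e, s (e, z u)) - zt 4 ^ i * 𝔽.Psi b x‖ < κ / 2 := by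
      have h2 := hPs b (tau^[i] e) _ _ (hx.trans_le (hεP b))
      have h3 : S.Ps b (tau^[i] e, jj (S.J (e, x))) = zt 4 ^ i * 𝔽.Psi b x := by
        rw [← hJ, S.Ps_eq, 𝔽.Psi_eqv, chr_natCast, Circle.coe_pow, CRC.coe_ztC3]
        rfl
      rwa [h3] at h2
    have h4 : ‖S.Ps b (e, s (e, z u)) - 𝔽.Psi b x‖ < κ / 2 := by
      have h2 := hPs b e _ _ (hx.trans_le (hεP b))
      rwa [S.Ps_eq] at h2
    have h5 : ‖zt 4 ^ i * 𝔽.Psi b x - zt 4 ^ i * S.Ps b (e, s (e, z u))‖ < κ / 2 := by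
      rw [← mul_sub, norm_mul, norm_pow]
      have h6 : ‖zt 4‖ = 1 := by rw [← CRC.coe_ztC3, Circle.norm_coe]
      rw [h6, one_pow, one_mul, norm_sub_rev]
      exact h4
    have h7 := norm_sub_le_norm_sub_add_norm_sub (S.Ps b (tau^[i] e, s (e, z u)))
      (zt 4 ^ i * 𝔽.Psi b x) (zt 4 ^ i * S.Ps b (e, s (e, z u)))
    linarith
  · intro e u hpos
    simp only at hpos ⊢
    obtain ⟨x, hx⟩ := hnear e (z u)
    set y := s (e, z u) with hy
    set y' := jj (S.J (e, x)) with hy'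
    have hdist : dist y y' < ε := by rw [dist_eq_norm]; exact hx
    have h1 := hθ (hdist.trans_le hεθ)
    have h2 := hvt (hdist.trans_le hεv)
    rw [dist_eq_norm, hy', S.θ_eq] at h1
    rw [Real.dist_eq, hy', S.vt_eq] at h2
    obtain ⟨hne, heq⟩ := hθs e (z u)
    rw [← hy] at hne heq
    have h3 : ‖(‖S.θ y‖ : ℂ) * ((z u * Circle.exp (w (e, z u)) : Circle) : ℂ) -
        (𝔽.th x : ℂ)‖ < r / 4 := by
      rw [Circle.coe_mul, ← heq]
      exact h1
    have h4 := near_unit (norm_nonneg _) (Circle.norm_coe _) (Circle.norm_coe _) h3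
    have h5 : dist (z u * Circle.exp (w (e, z u))) (𝔽.th x) < 2 * (r / 4) := by
      change dist ((z u * Circle.exp (w (e, z u)) : Circle) : ℂ) (𝔽.th x : ℂ) < _
      rw [dist_eq_norm]; exact h4
    have h6 : dist (Circle.exp (S.vt y)) (Circle.exp (𝔽.vth x)) < r / 4 :=
      (dist_circle_exp _ _).trans_lt h2
    have h7 : Circle.exp (t u + (w (e, z u) + S.vt y)) =
        z u * Circle.exp (w (e, z u)) * Circle.exp (S.vt y) := by
      rw [Circle.exp_add (t u), Circle.exp_add (w (e, z u)), mul_assoc]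
    have h8 := dist_mul_le (z u * Circle.exp (w (e, z u))) (Circle.exp (S.vt y)) (𝔽.th x)
      (Circle.exp (𝔽.vth x))
    rw [abs_le] at hpos
    obtain ⟨b, hb⟩ := hcon x (t u + (w (e, z u) + S.vt y)) (by linarith [hpos.1])
      (by linarith [hpos.2]) (by rw [h7, dist_comm]; linarith)
    refine ⟨b, ?_⟩
    have h9 := hPs b e _ _ (hx.trans_le (hεP b))
    rw [S.Ps_eq] at h9
    have h10 := norm_sub_norm_le (𝔽.Psi b x) (S.Ps b (e, y))
    rw [norm_sub_rev] at h10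
    linarith
  · intro e
    have h1 := (abs_le.1 (hC' (e, z 0))).2
    have h2 : t 0 = -R := by simp [ht]
    simp only [h2]
    linarith
  · intro e
    have h1 := (abs_le.1 (hC' (e, z 1))).1
    have h2 : t 1 = R := by simp [ht]; ring
    simp only [h2]
    linarith

end Pool.Agent.MQ
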