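import Pool.Agent.Lib.MP_9c87eb_gt.Mg.G008

/-! TASK S3: gluing of states.

Choose `ε₁ > 0` such that `‖y - y'‖ < 2 ε₁ → ‖θ y - θ y'‖ < 1/8`. If `y` is within `ε₁` of `K p` then
`‖θ y‖ > 1/2` (`IsParam.close`). Let `μ p = max 0 (2 l p - 1)`. For `p ∈ C`:
`s₂ (p, z) = s + μ p • (s' - s)`, `w₂ = w + arg (θ s₂ / θ s)`; for `p ∉ C`: `s₂ = s'`, `w₂ = w'`.
On `C ∩ {l = 1}`: `s₂ = s'`, and `arg (θ s' / θ s) = w' - w` because `exp` of both agree and
`|w' - w| < π`. Continuity on `C ∪ {l = 1}` by gluing on the two closed sets `C` and `{l = 1}`.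
On `C` outside `{1/2 ≤ l}` nothing changes (`μ = 0`). -/

set_option autoImplicit false

namespace Pool.Agent.MQ

open Set Topology

private theorem arg_identity_gl {t u : ℂ} (hu : ‖u‖ = 1) :
    t = (‖t‖ : ℂ) * (u * (Circle.exp (Complex.arg (t / u)) : ℂ)) := by
  have hu0 : u ≠ 0 := by
    rintro rfl
    simp at hu
  have h1 := Complex.norm_mul_exp_arg_mul_I (t / u)
  rw [norm_div, hu, div_one] at h1
  rw [Circle.coe_exp]
  calc t = (t / u) * u := by field_simp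
    _ = ((‖t‖ : ℂ) * Complex.exp ((Complex.arg (t / u) : ℂ) * Complex.I)) * u := by rw [h1]
    _ = _ := by ring

/-- change of the argument: if `Θ = ‖Θ‖ z e^{iw}` then `S = ‖S‖ z e^{i(w + arg (S/Θ))}` -/
private theorem lift_change {Θ S : ℂ} {z : Circle} {w : ℝ} (hΘ : Θ ≠ 0)
    (h : Θ = (‖Θ‖ : ℂ) * ((z : ℂ) * (Circle.exp w : ℂ))) :
    S = (‖S‖ : ℂ) * ((z : ℂ) * (Circle.exp (w + Complex.arg (S / Θ)) : ℂ)) := by
  have hne : (z : ℂ) * (Circle.exp w : ℂ) ≠ 0 :=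
    mul_ne_zero (Circle.coe_ne_zero _) (Circle.coe_ne_zero _)
  have h1 := arg_identity_gl (t := S) (u := (z : ℂ) * (Circle.exp w : ℂ))
    (by rw [norm_mul, Circle.norm_coe, Circle.norm_coe, one_mul])
  have h2 : S / ((z : ℂ) * (Circle.exp w : ℂ)) = (‖Θ‖ : ℂ) * (S / Θ) := by
    rw [div_eq_iff hne]
    calc S = (S / Θ) * Θ := by field_simp
      _ = (S / Θ) * ((‖Θ‖ : ℂ) * ((z : ℂ) * (Circle.exp w : ℂ))) := by rw [← h]
      _ = _ := by ring
  rw [h2, Complex.arg_real_mul _ (norm_pos_iff.2 hΘ)] at h1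
  rw [Circle.exp_add, Circle.coe_mul]
  refine h1.trans ?_
  ring

/-- if `Θ = ‖Θ‖ z e^{iw}`, `Θ' = ‖Θ'‖ z e^{iw'}` and `|w' - w| < π` then `arg (Θ'/Θ) = w' - w` -/
private theorem arg_eq_sub {Θ Θ' : ℂ} {z : Circle} {w w' : ℝ} (hΘ : Θ ≠ 0) (hΘ' : Θ' ≠ 0)
    (h : Θ = (‖Θ‖ : ℂ) * ((z : ℂ) * (Circle.exp w : ℂ)))
    (h' : Θ' = (‖Θ'‖ : ℂ) * ((z : ℂ) * (Circle.exp w' : ℂ))) (hw : |w' - w| < Real.pi) :
    Complex.arg (Θ' / Θ) = w' - w := by
  have h1 : Θ' / Θ = ((‖Θ'‖ / ‖Θ‖ : ℝ) : ℂ) * (Circle.exp (w' - w) : ℂ) := by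
    have h2 : (‖Θ‖ : ℂ) ≠ 0 := by exact_mod_cast (norm_pos_iff.2 hΘ).ne'
    have h3 : (Circle.exp w' : ℂ) = (Circle.exp (w' - w) : ℂ) * (Circle.exp w : ℂ) := by
      rw [← Circle.coe_mul, ← Circle.exp_add, sub_add_cancel]
    rw [div_eq_iff hΘ, Complex.ofReal_div]
    calc Θ' = (‖Θ'‖ : ℂ) * ((z : ℂ) * (Circle.exp w' : ℂ)) := h'
      _ = (‖Θ'‖ : ℂ) / (‖Θ‖ : ℂ) * (Circle.exp (w' - w) : ℂ) *
          ((‖Θ‖ : ℂ) * ((z : ℂ) * (Circle.exp w : ℂ))) := by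
          rw [h3]; field_simp
      _ = (‖Θ'‖ : ℂ) / (‖Θ‖ : ℂ) * (Circle.exp (w' - w) : ℂ) * Θ := by rw [← h]
  rw [h1, Complex.arg_real_mul _ (div_pos (norm_pos_iff.2 hΘ') (norm_pos_iff.2 hΘ))]
  have h4 := abs_lt.1 hw
  exact Circle.arg_exp h4.1 h4.2.le

theorem glue {P : Type} [MetricSpace P] [CompactSpace P] {E : Type} [NormedAddCommGroup E]
    [NormedSpace ℝ E] {K : P → Set E} {θ : E → ℂ} (hθ : UniformContinuous θ)
    (hpar : ∀ p, ∃ ψ, IsParam θ (K p) ψ) :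
    ∃ ε₁ : ℝ, 0 < ε₁ ∧ ∀ (ε : ℝ), 0 < ε → ε ≤ ε₁ → ∀ (C : Set P), IsClosed C → ∀ (acc : P → ℝ),
      (∀ p, acc p ≤ ε) → ∀ (s : P × Circle → E) (w : P × Circle → ℝ), IsSt K θ C acc s w →
      ∀ l : P → ℝ, Continuous l → (∀ p, 0 ≤ l p ∧ l p ≤ 1) →
      (∀ p ∈ C, 1 / 2 ≤ l p → acc p ≤ ε / 2) →
      ∀ (s' : C(P × Circle, E)) (w' : C(P × Circle, ℝ)),
      IsSt K θ {p | 1 / 2 ≤ l p} (fun _ => ε / 2) s' w' →
      (∀ p ∈ C, 1 / 2 ≤ l p → ∀ z, ‖s' (p, z) - s (p, z)‖ < ε / 2 ∧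
        |w' (p, z) - w (p, z)| < Real.pi) →
      ∃ (s₂ : P × Circle → E) (w₂ : P × Circle → ℝ),
        IsSt K θ (C ∪ {p | l p = 1}) (fun p => if 1 / 2 ≤ l p then ε else acc p) s₂ w₂ := by
  classical
  obtain ⟨r, hr, hr'⟩ := Metric.uniformContinuous_iff.1 hθ (1 / 8) (by norm_num)
  have hθr : ∀ y y', ‖y - y'‖ < r → ‖θ y - θ y'‖ < 1 / 8 := by
    intro y y' h
    rw [← dist_eq_norm] at h ⊢
    exact hr' h
  refine ⟨r, hr, ?_⟩
  intro ε hε hεr C hC acc hacc s w hst l hl hl01 hacc2 s' w' hst' hclose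
  set μ : P → ℝ := fun p => max 0 (2 * l p - 1) with hμ
  have hμc : Continuous μ := continuous_const.max ((continuous_const.mul hl).sub continuous_const)
  have hμ0 : ∀ p, 0 ≤ μ p := fun p => le_max_left _ _
  have hμ1 : ∀ p, μ p ≤ 1 := fun p => max_le zero_le_one (by linarith [(hl01 p).2])
  have hμz : ∀ p, l p < 1 / 2 → μ p = 0 := fun p hp => max_eq_left (by linarith)
  have hμo : ∀ p, l p = 1 → μ p = 1 := fun p hp => by
    simp only [hμ, hp]; norm_num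
  set σ : P × Circle → E := fun t => s t + μ t.1 • (s' t - s t) with hσ
  have hσs : ∀ p ∈ C, ∀ z, ‖σ (p, z) - s (p, z)‖ < ε / 2 := by
    intro p hp z
    have h1 : σ (p, z) - s (p, z) = μ p • (s' (p, z) - s (p, z)) := by
      simp [hσ]
    rw [h1, norm_smul, Real.norm_of_nonneg (hμ0 p)]
    by_cases hlp : 1 / 2 ≤ l p
    · have h2 := (hclose p hp hlp z).1
      calc μ p * ‖s' (p, z) - s (p, z)‖ ≤ 1 * ‖s' (p, z) - s (p, z)‖ :=
            mul_le_mul_of_nonneg_right (hμ1 p) (norm_nonneg _)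
        _ < ε / 2 := by rw [one_mul]; exact h2
    · rw [hμz p (not_le.1 hlp), zero_mul]
      exact half_pos hε
  -- the lower bound for `θ` on `C`
  have hθK : ∀ p, ∀ y ∈ K p, 3 / 4 < ‖θ y‖ := by
    intro p y hy
    obtain ⟨ψ, hψ⟩ := hpar p
    rw [← hψ.rng] at hy
    obtain ⟨x, rfl⟩ := hy
    have h1 := hψ.close x
    have h2 : ‖(x.1 : ℂ)‖ = 1 := Circle.norm_coe _
    have h3 : ‖(x.1 : ℂ)‖ ≤ ‖θ (ψ x)‖ + ‖θ (ψ x) - (x.1 : ℂ)‖ := by
      calc ‖(x.1 : ℂ)‖ = ‖θ (ψ x) - (θ (ψ x) - (x.1 : ℂ))‖ := by congr 1; ring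
        _ ≤ _ := norm_sub_le _ _
    rw [h2] at h3
    linarith
  have hθs : ∀ p ∈ C, ∀ z, 5 / 8 < ‖θ (s (p, z))‖ := by
    intro p hp z
    obtain ⟨y, hy, hy'⟩ := hst.near p hp z
    have h1 : ‖s (p, z) - y‖ < r := hy'.trans_le ((hacc p).trans hεr)
    have h2 := hθr _ _ h1
    have h3 := hθK p y hy
    have h4 : ‖θ y‖ ≤ ‖θ (s (p, z))‖ + ‖θ (s (p, z)) - θ y‖ := by
      calc ‖θ y‖ = ‖θ (s (p, z)) - (θ (s (p, z)) - θ y)‖ := by congr 1; ring
        _ ≤ _ := norm_sub_le _ _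
    linarith
  have hratio : ∀ p ∈ C, ∀ z, 0 < (θ (σ (p, z)) / θ (s (p, z))).re := by
    intro p hp z
    have h1 : ‖σ (p, z) - s (p, z)‖ < r := by
      have := hσs p hp z
      linarith
    have h2 := hθr _ _ h1
    have h3 := hθs p hp z
    have h4 : θ (s (p, z)) ≠ 0 := by
      intro h0; rw [h0, norm_zero] at h3; norm_num at h3
    have h5 : ‖θ (σ (p, z)) / θ (s (p, z)) - 1‖ < 1 := by
      have h6 : θ (σ (p, z)) / θ (s (p, z)) - 1 =
          (θ (σ (p, z)) - θ (s (p, z))) / θ (s (p, z)) := by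
        rw [sub_div, div_self h4]
      rw [h6, norm_div, div_lt_one (by linarith)]
      linarith
    have h7 : |(θ (σ (p, z)) / θ (s (p, z)) - 1).re| < 1 := (Complex.abs_re_le_norm _).trans_lt h5
    rw [Complex.sub_re, Complex.one_re] at h7
    have := (abs_lt.1 h7).1
    linarith
  have hσne : ∀ p ∈ C, ∀ z, θ (σ (p, z)) ≠ 0 := by
    intro p hp z h0
    have := hratio p hp z
    rw [h0, zero_div, Complex.zero_re] at this
    exact lt_irrefl _ this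
  set ω : P × Circle → ℝ := fun t => w t + Complex.arg (θ (σ t) / θ (s t)) with hω
  have hσc : ContinuousOn σ (C ×ˢ (Set.univ : Set Circle)) :=
    hst.cs.add ((hμc.comp continuous_fst).continuousOn.smul (s'.continuous.continuousOn.sub hst.cs))
  have hωc : ContinuousOn ω (C ×ˢ (Set.univ : Set Circle)) := by
    apply hst.cw.add
    rintro ⟨p, z⟩ ht
    have h4 : ContinuousAt Complex.arg (θ (σ (p, z)) / θ (s (p, z))) :=
      Complex.continuousAt_arg (Complex.mem_slitPlane_iff.2 (Or.inl (hratio p ht.1 z)))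
    have h5 : ContinuousWithinAt (fun t => θ (σ t) / θ (s t)) (C ×ˢ (Set.univ : Set Circle))
        (p, z) :=
      ((hθ.continuous.comp_continuousOn hσc) (p, z) ht).div
        ((hθ.continuous.comp_continuousOn hst.cs) (p, z) ht) (hst.ne p ht.1 z)
    exact ContinuousAt.comp_continuousWithinAt (f := fun t => θ (σ t) / θ (s t)) h4 h5
  -- the new state
  set s₂ : P × Circle → E := fun t => if t.1 ∈ C then σ t else s' t with hs₂
  set w₂ : P × Circle → ℝ := fun t => if t.1 ∈ C then ω t else w' t with hw₂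
  have hs₂C : ∀ p ∈ C, ∀ z, s₂ (p, z) = σ (p, z) := fun p hp z => if_pos hp
  have hw₂C : ∀ p ∈ C, ∀ z, w₂ (p, z) = ω (p, z) := fun p hp z => if_pos hp
  have hs₂l : ∀ p, l p = 1 → ∀ z, s₂ (p, z) = s' (p, z) := by
    intro p hp z
    by_cases hpC : p ∈ C
    · rw [hs₂C p hpC]
      simp [hσ, hμo p hp]
    · exact if_neg hpC
  have hw₂l : ∀ p, l p = 1 → ∀ z, w₂ (p, z) = w' (p, z) := by
    intro p hp z
    by_cases hpC : p ∈ C
    · rw [hw₂C p hpC]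
      have hlp : 1 / 2 ≤ l p := by rw [hp]; norm_num
      have h1 : σ (p, z) = s' (p, z) := by simp [hσ, hμo p hp]
      have h2 := arg_eq_sub (hst.ne p hpC z) (hst'.ne p hlp z) (hst.lift p hpC z)
        (hst'.lift p hlp z) (hclose p hpC hlp z).2
      show w (p, z) + Complex.arg (θ (σ (p, z)) / θ (s (p, z))) = w' (p, z)
      rw [h1, h2]
      ring
    · exact if_neg hpC
  have hl1c : IsClosed {p | l p = 1} := isClosed_eq hl continuous_const
  have hprod : (C ∪ {p | l p = 1}) ×ˢ (Set.univ : Set Circle) =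
      C ×ˢ (Set.univ : Set Circle) ∪ {p | l p = 1} ×ˢ (Set.univ : Set Circle) :=
    Set.union_prod
  refine ⟨s₂, w₂, ?_, ?_, ?_, ?_, ?_⟩
  · rw [hprod]
    apply ContinuousOn.union_of_isClosed _ _ (hC.prod isClosed_univ) (hl1c.prod isClosed_univ)
    · exact hσc.congr fun t ht => hs₂C t.1 ht.1 t.2
    · exact s'.continuous.continuousOn.congr fun t ht => hs₂l t.1 ht.1 t.2
  · rw [hprod]
    apply ContinuousOn.union_of_isClosed _ _ (hC.prod isClosed_univ) (hl1c.prod isClosed_univ)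
    · exact hωc.congr fun t ht => hw₂C t.1 ht.1 t.2
    · exact w'.continuous.continuousOn.congr fun t ht => hw₂l t.1 ht.1 t.2
  · intro p hp z
    by_cases hpC : p ∈ C
    · rw [hs₂C p hpC]
      obtain ⟨y, hy, hy'⟩ := hst.near p hpC z
      refine ⟨y, hy, ?_⟩
      by_cases hlp : 1 / 2 ≤ l p
      · rw [if_pos hlp]
        have h1 := hσs p hpC z
        have h2 := hacc2 p hpC hlp
        calc ‖σ (p, z) - y‖ = ‖(σ (p, z) - s (p, z)) + (s (p, z) - y)‖ := by congr 1; abel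
          _ ≤ ‖σ (p, z) - s (p, z)‖ + ‖s (p, z) - y‖ := norm_add_le _ _
          _ < ε := by linarith
      · rw [if_neg hlp]
        have h1 : σ (p, z) = s (p, z) := by simp [hσ, hμz p (not_le.1 hlp)]
        rw [h1]
        exact hy'
    · have hl1 : l p = 1 := hp.resolve_left hpC
      have hlp : 1 / 2 ≤ l p := by rw [hl1]; norm_num
      rw [hs₂l p hl1, if_pos hlp]
      obtain ⟨y, hy, hy'⟩ := hst'.near p hlp z
      exact ⟨y, hy, by linarith⟩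
  · intro p hp z
    by_cases hpC : p ∈ C
    · rw [hs₂C p hpC]; exact hσne p hpC z
    · have hl1 : l p = 1 := hp.resolve_left hpC
      have hlp : 1 / 2 ≤ l p := by rw [hl1]; norm_num
      rw [hs₂l p hl1]; exact hst'.ne p hlp z
  · intro p hp z
    by_cases hpC : p ∈ C
    · rw [hs₂C p hpC, hw₂C p hpC]
      exact lift_change (hst.ne p hpC z) (hst.lift p hpC z)
    · have hl1 : l p = 1 := hp.resolve_left hpC
      have hlp : 1 / 2 ≤ l p := by rw [hl1]; norm_num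
      rw [hs₂l p hl1, hw₂l p hl1]; exact hst'.lift p hlp z

end Pool.Agent.MQ
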