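import Pool.Agent.Lib.MP_9c87eb_gt.Mg.G001
import Pool.Agent.Lib.MP_13800a_gt.GoodI

/-! TASK K1: `(EE, tauK k)` is good.

Let `PK k = ∀ j : Fin (k+1), SB (NN j)` with the map `rotP k` (`cS (ztC (NN j))` in each coordinate).
(1) If `f : Q1 → Q` is continuous and `f ∘ τ1 = τ ∘ f` then `Good n τ1 m → Good n τ m`
(`pull_one_add_pow`, `pull_oneK`). (2) `Good (NN k) (rotP k) (NN k - 1)` by induction on `k`:
`good_base`, `good_infl` (with `a = 0`, `b = 1`), `good_sphere` give it for `Unit × SB 2`, hence for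
`k = 0`; from `k` to `k + 1`: `good_infl` (`NN (k+1) = NN k * NN k`,
`(NN k - 1 + 1) * NN k - 1 = NN (k+1) - 1`), `good_sphere`, and the equivariant map
`PK k × SB (NN (k+1)) → PK (k+1)`. (3) The map `PK k → EE` which is constant in the coordinates
`j > k` (`SB m` is nonempty for `m > 0`) is equivariant for `rotP k` and `tauK k`.
(`CRC.coe_ztC3 : (ztC n : ℂ) = zt n`.) -/

set_option autoImplicit false

namespace Pool.Agent.MQ

open Set Topology
open Pool.Agent.CRC (UI SB zt ztC S3 rot Good)

private theorem continuous_cSK {m : ℕ} (c : Circle) : Continuous (cS c : SB m → SB m) := by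
  have h : Continuous (fun x : SB m => (c : ℂ) • x.1) := by fun_prop
  exact Continuous.subtype_mk h _

theorem continuous_tauK (k : ℕ) : Continuous (tauK k) := by
  refine continuous_pi fun j => ?_
  by_cases h : j ≤ k
  · simp only [tauK, h, if_true]
    exact (continuous_cSK _).comp (continuous_apply j)
  · simp only [tauK, h, if_false]
    exact continuous_apply j

private theorem tauK_iter_apply (k i : ℕ) (e : EE) (j : ℕ) :
    (((tauK k)^[i] e) j).1 = if j ≤ k then ((ztC (NN j) : Circle) : ℂ) ^ i • (e j).1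
      else (e j).1 := by
  induction i with
  | zero => simp
  | succ i ih =>
    rw [Function.iterate_succ_apply']
    by_cases h : j ≤ k
    · simp only [h, if_true] at ih ⊢
      simp only [tauK, h, if_true]
      show ((ztC (NN j) : Circle) : ℂ) • (((tauK k)^[i] e) j).1 = _
      rw [ih, smul_smul, pow_succ']
    · simp only [h, if_false] at ih ⊢
      simp only [tauK, h, if_false]
      exact ih

theorem tauK_iter (k : ℕ) : (tauK k)^[NN k] = id := by
  funext e
  funext j
  apply Subtype.ext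
  rw [tauK_iter_apply]
  by_cases h : j ≤ k
  · simp only [h, if_true]
    have h1 : ztC (NN j) ^ NN k = 1 := by
      rw [Pool.Agent.CRC.ztC_pow_eq_one_iff _ _ (NN_ne_zero j)]
      exact pow_dvd_pow 2 (Nat.pow_le_pow_right (by norm_num) h)
    rw [← Circle.coe_pow, h1, Circle.coe_one, one_smul]
    rfl
  · simp only [h, if_false]
    rfl

private theorem good_of_map {Q Q1 : Type} [TopologicalSpace Q] [TopologicalSpace Q1]
    {n m : ℕ} {τ : Q → Q} {τ1 : Q1 → Q1} {f : Q1 → Q} (hf : Continuous f)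
    (he : ∀ q, f (τ1 q) = τ (f q)) (h : Good n τ1 m) : Good n τ m := by
  intro h0
  apply h
  have hd : Pool.Agent.CRC.PullData τ τ1 (∅ : Set Q) (∅ : Set Q1) f :=
    ⟨hf, he, fun q hq => absurd hq (Set.notMem_empty q)⟩
  have h1 := congrArg (Pool.Agent.CRC.pull (n := n) hd) h0
  rw [Pool.Agent.CRC.pull_one_add_pow, Pool.Agent.CRC.pull_oneK, map_zero] at h1
  exact h1

private theorem sb_nonempty (m : ℕ) (hm : 0 < m) : Nonempty (SB m) := by
  have : Nonempty (Fin m) := ⟨⟨0, hm⟩⟩
  refine ⟨⟨fun _ => 1, ?_⟩⟩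
  rw [mem_sphere_zero_iff_norm]
  simp

private theorem update_equiv (k j0 : ℕ) (σ : EE → EE) (hσ : ∀ e j, j ≠ j0 → σ e j = tauK k e j)
    (hj : j0 ≤ k) (e : EE) (z : SB (NN j0)) :
    Function.update (σ e) j0 (cS (ztC (NN j0)) z) = tauK k (Function.update e j0 z) := by
  funext j
  by_cases h : j = j0
  · subst h
    simp only [Function.update_self, tauK, hj, if_true]
  · rw [Function.update_of_ne h, hσ e j h]
    simp only [tauK]
    rw [Function.update_of_ne h]

private theorem cS_eq_rotS {m : ℕ} (z : SB m) : cS (ztC m) z = Pool.Agent.CRC.rotS m z := by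
  apply Subtype.ext
  show ((ztC m : Circle) : ℂ) • z.1 = zt m • z.1
  rw [Pool.Agent.CRC.coe_ztC3]

private theorem good_zero : Good (NN 0) (tauK 0) (NN 0 - 1) := by
  have h1 := Pool.Agent.CRC.good_infl (a := 0) (b := 1) (m := 0)
    (τ := (id : Unit → Unit)) continuous_id (by simp) (by simpa using Pool.Agent.CRC.good_base)
  have h2 : Good (2 ^ 1) (id : Unit → Unit) 1 := by simpa using h1
  have h3 := Pool.Agent.CRC.good_sphere (a := 1) (τ := (id : Unit → Unit)) continuous_id
    (by simp) h2
  have : ∀ j, Nonempty (SB (NN j)) := fun j => sb_nonempty _ (NN_pos j)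
  let e0 : EE := fun j => Classical.arbitrary _
  refine good_of_map (τ1 := Prod.map (id : Unit → Unit) (Pool.Agent.CRC.rotS (2 ^ 1)))
    (f := fun p : Unit × SB (NN 0) => Function.update e0 0 p.2)
    (continuous_const.update 0 continuous_snd) ?_ h3
  rintro ⟨u, z⟩
  have := update_equiv 0 0 id (fun e j hj => by
    have : ¬ j ≤ 0 := by omega
    simp [tauK, hj]) le_rfl e0 z
  exact (congrArg (Function.update e0 0) (cS_eq_rotS (m := NN 0) z)).symm.trans this

private theorem good_succ (k : ℕ) (ih : Good (NN k) (tauK k) (NN k - 1)) :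
    Good (NN (k + 1)) (tauK (k + 1)) (NN (k + 1) - 1) := by
  have h1 := Pool.Agent.CRC.good_infl (a := 2 ^ k) (b := 2 ^ k) (m := NN k - 1)
    (τ := tauK k) (continuous_tauK k) (tauK_iter k) ih
  have e1 : 2 ^ 2 ^ k * 2 ^ 2 ^ k = NN (k + 1) := (NN_succ k).symm
  have e2 : (NN k - 1 + 1) * 2 ^ 2 ^ k - 1 = NN (k + 1) - 1 := by
    rw [Nat.sub_add_cancel (NN_pos k), NN_succ]
    rfl
  rw [e1, e2] at h1
  have hit : (tauK k)^[2 ^ 2 ^ (k + 1)] = id := by
    show (tauK k)^[NN (k + 1)] = id
    rw [NN_succ, Function.iterate_mul, tauK_iter, Function.iterate_id]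
  have h2 := Pool.Agent.CRC.good_sphere (a := 2 ^ (k + 1)) (τ := tauK k) (continuous_tauK k)
    hit h1
  refine good_of_map (τ1 := Prod.map (tauK k) (Pool.Agent.CRC.rotS (NN (k + 1))))
    (f := fun p : EE × SB (NN (k + 1)) => Function.update p.1 (k + 1) p.2)
    (continuous_fst.update (k + 1) continuous_snd) ?_ h2
  rintro ⟨e, z⟩
  have := update_equiv (k + 1) (k + 1) (tauK k) (fun e j hj => by
    by_cases h : j ≤ k
    · have h' : j ≤ k + 1 := by omega
      simp [tauK, h, h']
    · have h' : ¬ j ≤ k + 1 := by omega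
      simp [tauK, h, h']) le_rfl e z
  rw [← this]
  show Function.update (tauK k e) (k + 1) (Pool.Agent.CRC.rotS (NN (k + 1)) z) = _
  rw [← cS_eq_rotS]

theorem good_tauK (k : ℕ) : Good (NN k) (tauK k) (NN k - 1) := by
  induction k with
  | zero => exact good_zero
  | succ k ih => exact good_succ k ih

end Pool.Agent.MQ
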