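import Pool.Agent.Lib.MP_9c87eb_gt.Defs

/-! TASK L1: `FF = S¹ × HC` is a Hilbert cube manifold.

Around `z : Circle` the map `Circle.exp` gives a homeomorphism of a neighbourhood with an open
interval, hence with `Ioo 0 1`-like open subset of `unitInterval`; `unitInterval × HC ≃ₜ HC` by
shifting the coordinates; the image of (open) × univ is open. -/

set_option autoImplicit false

namespace Pool.Agent.MQ

open Set Topology

/-- shifting the coordinates of the Hilbert cube -/
private def l1_cons : unitInterval × HC ≃ₜ HC where
  toFun p n := match n with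
    | 0 => p.1
    | n + 1 => p.2 n
  invFun f := (f 0, fun n => f (n + 1))
  left_inv p := rfl
  right_inv f := by
    funext n
    cases n <;> rfl
  continuous_toFun := by
    refine continuous_pi fun n => ?_
    cases n with
    | zero => exact continuous_fst
    | succ n => exact (continuous_apply n).comp continuous_snd
  continuous_invFun := by
    refine (continuous_apply 0).prodMk (continuous_pi fun n => continuous_apply (n + 1))

private theorem l1_sigmoid : IsOpenEmbedding unitInterval.sigmoid := by
  have h1 : OrdConnected (range unitInterval.sigmoid) := by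
    rw [unitInterval.range_sigmoid]
    exact ordConnected_Ioo
  refine ⟨unitInterval.sigmoid_strictMono.isEmbedding_of_ordConnected h1, ?_⟩
  rw [unitInterval.range_sigmoid]
  exact isOpen_Ioo

theorem FF_locally (x : FF) : ∃ U : Set FF, IsOpen U ∧ x ∈ U ∧
    ∃ V : Set (ℕ → unitInterval), IsOpen V ∧ Nonempty (U ≃ₜ V) := by
  obtain ⟨t, ht⟩ := Circle.exp_surjective x.1
  obtain ⟨e, hte, he⟩ := isLocalHomeomorph_circleExp t
  have hG : IsOpenEmbedding (fun p : ℝ × HC => l1_cons (unitInterval.sigmoid p.1, p.2)) :=
    l1_cons.isOpenEmbedding.comp (l1_sigmoid.prodMap IsOpenEmbedding.id)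
  let P : OpenPartialHomeomorph FF HC :=
    (e.symm.prod (OpenPartialHomeomorph.refl HC)).trans (hG.toOpenPartialHomeomorph _)
  refine ⟨P.source, P.open_source, ?_, P.target, P.open_target, ⟨P.toHomeomorphSourceTarget⟩⟩
  have h1 : x.1 ∈ e.target := by
    rw [← ht, he]
    exact e.map_source hte
  simp [P, h1]

end Pool.Agent.MQ
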