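import Pool.Agent.Lib.MP_9c87eb_gt.Mg.G011
import Pool.Agent.Lib.MP_9c87eb_gt.Mg.G013
import Pool.Agent.Lib.MP_9c87eb_gt.Mg.G015
import Pool.Agent.Lib.MP_9c87eb_gt.Mg.G001

/-! TASK F3c: approximate sections over `EE` from an extension of the map `range JE → MF`.

Decrease `ε` so that `‖y - y'‖ < ε → ‖θ y - θ y'‖ < 1/8` (`S.θ_uc`).
1. `rho_unif` for `A = range JE` (compact, `EE` is compact) and `ε/2` gives `V`; `exists_trunc` gives `k`. So
   `incK k (resK k (JE e)) ∈ U` and `rho (ε/2) (g (incK k (resK k (JE e)))) (mkM (φ e))`.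
2. `P = range (resK k ∘ JE) ⊆ Fin k → ℝ` (compact, so bounded: `hasGrid`),
   `K p = kset (g (incK k p))`.
3. `HUC K`: `rho_unif` for the compact set `incK k '' P ⊆ U`, `uniformContinuous_incK`, `kset_close`.
4. `hpar`: `exists_param` with `φ0 = φ e` (`θ (jj (φ e x)) = th (G0 x)`, `G0_close`, `φ_apply`, `θ_eq`;
   the distance in `Circle` is the norm of the difference in `ℂ`).
5. `section_lemma` with `ε/2` gives `(s, w)` over `P`; `s' (e, z) = s (resK k (JE e), z)`, same for `w`.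
   Invariance under `tau`: `JE (tau e) = JE e` (`JE_eq`, `actE_one`). Nearness: `kset_close` and `kset_mkM`:
   a point of `K p` is `ε/2`-close to some `jj (φ e x) = jj (J (e, G0 x))`. -/

set_option autoImplicit false

namespace Pool.Agent.MQ

open Set Topology

theorem exists_sect (𝔽 : Fib) (S : Setup 𝔽) {U : Set HC} (hU : IsOpen U)
    (hAU : Set.range S.JE ⊆ U) (g : C(U, MF))
    (hg : ∀ e, g ⟨S.JE e, hAU ⟨e, rfl⟩⟩ = mkM (S.φ e)) (ε : ℝ) (hε : 0 < ε) :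
    ∃ (s : C(EE × Circle, EB)) (w : C(EE × Circle, ℝ)), (∀ e z, s (tau e, z) = s (e, z)) ∧
      (∀ e z, w (tau e, z) = w (e, z)) ∧ (∀ e z, ∃ x, ‖s (e, z) - jj (S.J (e, x))‖ < ε) ∧
      ∀ e z, S.θ (s (e, z)) ≠ 0 ∧
        S.θ (s (e, z)) = (‖S.θ (s (e, z))‖ : ℂ) * ((z : ℂ) * (Circle.exp (w (e, z)) : ℂ)) := by
  obtain ⟨ε0, hε0, hθ⟩ := Metric.uniformContinuous_iff.1 S.θ_uc (1 / 8) (by norm_num)
  set ε' : ℝ := min ε ε0 with hε'def
  have hε' : 0 < ε' := lt_min hε hε0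
  have hε'2 : 0 < ε' / 2 := by positivity
  have hA : IsCompact (Set.range S.JE) := isCompact_range S.JE_cont
  obtain ⟨V, hV, hVr⟩ := rho_unif hU g hA hAU hε'2
  obtain ⟨k, hk⟩ := exists_trunc V hV
  have hrho : ∀ e, ∃ hu : incK k (resK k (S.JE e)) ∈ U,
      rho (ε' / 2) (g ⟨incK k (resK k (S.JE e)), hu⟩) (mkM (S.φ e)) := by
    intro e
    obtain ⟨hu, h⟩ := hVr (S.JE e) ⟨e, rfl⟩ _ (hk (S.JE e))
    exact ⟨hu, by rw [← hg e]; exact h⟩
  have hrc : Continuous fun e => resK k (S.JE e) := (continuous_resK k).comp S.JE_cont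
  set P : Set (Fin k → ℝ) := Set.range fun e => resK k (S.JE e) with hP
  have hPc : IsCompact P := isCompact_range hrc
  have hPcs : CompactSpace P := isCompact_iff_compactSpace.1 hPc
  have hPU : ∀ p : P, incK k (p : Fin k → ℝ) ∈ U := by
    rintro ⟨_, e, rfl⟩
    exact (hrho e).1
  have hic : Continuous (incK k) := (uniformContinuous_incK k).continuous
  set K : P → Set EB := fun p => kset (g ⟨incK k (p : Fin k → ℝ), hPU p⟩) with hK
  have hKuc : HUC K := by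
    intro ε1 hε1
    have hA' : IsCompact (incK k '' P) := hPc.image hic
    have hA'U : incK k '' P ⊆ U := by
      rintro _ ⟨p, hp, rfl⟩
      exact hPU ⟨p, hp⟩
    obtain ⟨V', hV', hVr'⟩ := rho_unif hU g hA' hA'U hε1
    have h1 := uniformContinuous_incK k hV'
    rw [Filter.mem_map] at h1
    obtain ⟨δ, hδ, hδ'⟩ := Metric.mem_uniformity_dist.1 h1
    refine ⟨δ, hδ, fun p q hpq y hy => ?_⟩
    have h2 : (incK k (p : Fin k → ℝ), incK k (q : Fin k → ℝ)) ∈ V' := hδ' hpq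
    obtain ⟨hu, h3⟩ := hVr' _ ⟨q, q.2, rfl⟩ _ h2
    exact kset_close h3 y hy
  have hpar : ∀ p, ∃ ψ, IsParam S.θ (K p) ψ := by
    rintro ⟨_, e, rfl⟩
    refine exists_param (ε := ε' / 2) (φ0 := S.φ e) ?_ ?_ (hrho e).2
    · intro y y' hyy'
      rw [← dist_eq_norm]
      refine hθ ?_
      rw [dist_eq_norm]
      have h1 : ε' ≤ ε0 := min_le_right _ _
      linarith
    · intro x
      rw [S.φ_apply, S.θ_eq, ← dist_eq_norm]
      exact S.G0_close x
  obtain ⟨s, w, hst⟩ := section_lemma (hasGrid k P hPc.isBounded) S.θ_uc hKuc hpar hε'2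
  let pr : C(EE × Circle, P × Circle) :=
    ⟨fun q => (⟨resK k (S.JE q.1), ⟨q.1, rfl⟩⟩, q.2),
      ((hrc.comp continuous_fst).subtype_mk _).prodMk continuous_snd⟩
  have hpr : ∀ e z, pr (tau e, z) = pr (e, z) := by
    intro e z
    have h1 : S.JE (tau e) = S.JE e := by
      rw [eq_comm, S.JE_eq]
      exact ⟨1, actE_one e⟩
    refine Prod.ext (Subtype.ext ?_) rfl
    change resK k (S.JE (tau e)) = resK k (S.JE e)
    rw [h1]
  refine ⟨s.comp pr, w.comp pr, ?_, ?_, ?_, ?_⟩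
  · intro e z
    rw [ContinuousMap.comp_apply, ContinuousMap.comp_apply, hpr]
  · intro e z
    rw [ContinuousMap.comp_apply, ContinuousMap.comp_apply, hpr]
  · intro e z
    obtain ⟨y, hy, hsy⟩ := hst.near ⟨resK k (S.JE e), ⟨e, rfl⟩⟩ (Set.mem_univ _) z
    obtain ⟨y', hy', hyy'⟩ := kset_close (hrho e).2 y hy
    rw [kset_mkM] at hy'
    obtain ⟨x, rfl⟩ := hy'
    refine ⟨S.G0 x, ?_⟩
    rw [← S.φ_apply]
    have h1 : ε' ≤ ε := min_le_left _ _
    have h2 := norm_sub_le_norm_sub_add_norm_sub ((s.comp pr) (e, z)) y (jj ((S.φ e).1 x))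
    have h3 : (s.comp pr) (e, z) = s (⟨resK k (S.JE e), ⟨e, rfl⟩⟩, z) := rfl
    rw [h3] at h2 ⊢
    have h4 : ‖s (⟨resK k (S.JE e), ⟨e, rfl⟩⟩, z) - y‖ < ε' / 2 := hsy
    have h5 : ‖y - jj ((S.φ e).1 x)‖ < ε' / 2 := hyy'
    linarith
  · intro e z
    exact ⟨hst.ne _ (Set.mem_univ _) z, hst.lift _ (Set.mem_univ _) z⟩

end Pool.Agent.MQ
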