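import Pool.Agent.Lib.MP_9c87eb_gt.Mg.G002
import Pool.Agent.Lib.MP_9c87eb_gt.Mg.G004
import Pool.Agent.Lib.MP_9c87eb_gt.Mg.G001

/-! TASK F1: existence of the setup.

`JE = ic ∘ (orbit embedding of EE)`, `J` = orbit embedding of `EE × F` for the diagonal action
(`exists_orbit_embedding`), `G0` from `𝔽.geo (1/16)`, `φ e = J (e, G0 ·)`: injective since
`J (e, x) = J (e, x')` gives `a` with `actE a e = e`, so `a = 0` (`actE_free`) and `x = x'`; an
injective continuous map of a compact space to a Hausdorff space is an embedding. `φ_cont`: currying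
(`ContinuousMap.curry`).
`θ = θ' ∘ cl` where `θ' : HC → ℂ` is a continuous extension (Tietze, `HC` compact Hausdorff) of the function
`ic (J (e, x)) ↦ th x` on the compact set `range (ic ∘ J)` (well defined by `J_eq` and `th_inv`;
continuous because `EE × F → range` is a quotient map), `θ'` is uniformly continuous as `HC` is compact;
`cl_jj`. Same for `vt`. `Ps b (e, y) = Ps' (e, cl y)`, `Ps'` an extension to `EE × HC` of
`(e, ic (J (e, x))) ↦ Psi b x` (well defined: `(e, x)` is determined by `(e, J (e, x))`). -/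

set_option autoImplicit false

namespace Pool.Agent.MQ

open Set Topology

/-- A function on a compact space which is constant on the fibres of a continuous map to a compact
Hausdorff space factors through a continuous function on the latter. -/
theorem setupEx_ext {Y Z E : Type} [TopologicalSpace Y] [TopologicalSpace Z] [TopologicalSpace E]
    [TietzeExtension.{0, 0} E] [CompactSpace Y] [CompactSpace Z] [T2Space Z] (q : Y → Z)
    (hq : Continuous q) (u : Y → E) (hu : Continuous u) (h : ∀ y y', q y = q y' → u y = u y') :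
    ∃ v : Z → E, Continuous v ∧ ∀ y, v (q y) = u y := by
  classical
  have hS : IsClosed (Set.range q) := (isCompact_range hq).isClosed
  set r : Y → Set.range q := Set.rangeFactorization q with hr
  have hrc : Continuous r := by
    rw [hr]
    exact hq.rangeFactorization
  have hrs : Function.Surjective r := Set.rangeFactorization_surjective
  have hrq : IsQuotientMap r := hrc.isClosedMap.isQuotientMap hrc hrs
  let w : Set.range q → E := fun s => u (Classical.choose s.2)
  have hw : ∀ y, w (r y) = u y := by
    intro y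
    apply h
    exact Classical.choose_spec (r y).2
  have hwc : Continuous w := by
    rw [hrq.continuous_iff]
    have : w ∘ r = u := funext hw
    rw [this]
    exact hu
  obtain ⟨g, hg⟩ := ContinuousMap.exists_restrict_eq hS (⟨w, hwc⟩ : C(Set.range q, E))
  refine ⟨g, g.continuous, ?_⟩
  intro y
  have h1 := congrArg (fun f : C(Set.range q, E) => f (r y)) hg
  simp only [ContinuousMap.coe_mk, hw] at h1
  rw [← h1]
  rfl

theorem exists_setup (𝔽 : Fib) : Nonempty (Setup 𝔽) := by
  -- the embedding of the base
  obtain ⟨J0, hJ0c, hJ0⟩ := exists_orbit_embedding (G := ℤ_[2]) (Y := EE) actE actE_zero actE_add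
    continuous_actE
  -- the embedding of the total space
  obtain ⟨J, hJc, hJ⟩ := exists_orbit_embedding (G := ℤ_[2]) (Y := EE × 𝔽.F)
    (fun a y => (actE a y.1, 𝔽.act a y.2)) (fun y => by
      rw [actE_zero, 𝔽.act_zero]) (fun a b y => by
      rw [actE_add, 𝔽.act_add]) (by
      refine Continuous.prodMk ?_ ?_
      · exact continuous_actE.comp (continuous_fst.prodMk (continuous_fst.comp continuous_snd))
      · exact 𝔽.act_cont.comp (continuous_fst.prodMk (continuous_snd.comp continuous_snd)))
  have hJ' : ∀ e e' x x', J (e, x) = J (e', x') ↔ ∃ a, actE a e = e' ∧ 𝔽.act a x = x' := by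
    intro e e' x x'
    rw [hJ]
    simp only [Prod.mk.injEq]
  have hJfib : ∀ e x x', J (e, x) = J (e, x') → x = x' := by
    intro e x x' h
    obtain ⟨a, ha, hx⟩ := (hJ' e e x x').1 h
    have h0 := actE_free a e ha
    rw [h0, 𝔽.act_zero] at hx
    exact hx
  obtain ⟨G0, hG0⟩ := 𝔽.geo (1 / 16) (by norm_num)
  -- the embeddings of the fibre
  have hcur : Continuous fun p : EE × FF => J (p.1, G0 p.2) :=
    hJc.comp (continuous_fst.prodMk (G0.continuous.comp continuous_snd))
  let Φ : C(EE × FF, ℕ → Set.Ioo (0 : ℝ) 1) := ⟨fun p => J (p.1, G0 p.2), hcur⟩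
  have hemb : ∀ e : EE, Topology.IsEmbedding (Φ.curry e) := by
    intro e
    refine (Continuous.isClosedEmbedding (Φ.curry e).continuous ?_).isEmbedding
    intro x x' h
    exact G0.injective (hJfib e _ _ h)
  -- continuous extensions
  have hq1 : Continuous fun y : EE × 𝔽.F => ic (J y) := continuous_ic.comp hJc
  obtain ⟨θ', hθ'c, hθ'⟩ := setupEx_ext (fun y : EE × 𝔽.F => ic (J y)) hq1
    (fun y => (𝔽.th y.2 : ℂ)) (continuous_subtype_val.comp (𝔽.th_cont.comp continuous_snd)) (by
      rintro ⟨e, x⟩ ⟨e', x'⟩ h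
      obtain ⟨a, -, hx⟩ := (hJ' e e' x x').1 (ic_injective h)
      simp only [← hx, 𝔽.th_inv])
  obtain ⟨v', hv'c, hv'⟩ := setupEx_ext (fun y : EE × 𝔽.F => ic (J y)) hq1
    (fun y => 𝔽.vth y.2) (𝔽.vth_cont.comp continuous_snd) (by
      rintro ⟨e, x⟩ ⟨e', x'⟩ h
      obtain ⟨a, -, hx⟩ := (hJ' e e' x x').1 (ic_injective h)
      simp only [← hx, 𝔽.vth_inv])
  have hps : ∀ b : Fin 2, ∃ P : EE × HC → ℂ, Continuous P ∧
      ∀ y : EE × 𝔽.F, P (y.1, ic (J y)) = 𝔽.Psi b y.2 := by
    intro b
    refine setupEx_ext (fun y : EE × 𝔽.F => ((y.1, ic (J y)) : EE × HC))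
      (continuous_fst.prodMk hq1) (fun y => 𝔽.Psi b y.2) ((𝔽.Psi_cont b).comp continuous_snd) ?_
    rintro ⟨e, x⟩ ⟨e', x'⟩ h
    simp only [Prod.mk.injEq] at h
    obtain ⟨rfl, h2⟩ := h
    have h3 := hJfib e x x' (ic_injective h2)
    rw [h3]
  choose P hPc hP using hps
  exact ⟨{
    JE := fun e => ic (J0 e)
    JE_cont := continuous_ic.comp hJ0c
    JE_eq := fun e e' => by
      rw [← hJ0]
      exact ic_injective.eq_iff
    J := J
    J_cont := hJc
    J_eq := hJ'
    G0 := G0
    G0_close := hG0
    φ := fun e => ⟨Φ.curry e, hemb e⟩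
    φ_apply := fun e x => rfl
    φ_cont := Φ.curry.continuous.subtype_mk _
    θ := fun y => θ' (cl y)
    θ_uc := (CompactSpace.uniformContinuous_of_continuous hθ'c).comp uniformContinuous_cl
    θ_eq := fun e x => by
      rw [cl_jj]
      exact hθ' (e, x)
    vt := fun y => v' (cl y)
    vt_uc := (CompactSpace.uniformContinuous_of_continuous hv'c).comp uniformContinuous_cl
    vt_eq := fun e x => by
      rw [cl_jj]
      exact hv' (e, x)
    Ps := fun b p => P b (p.1, cl p.2)
    Ps_uc := fun b => (CompactSpace.uniformContinuous_of_continuous (hPc b)).comp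
      (uniformContinuous_fst.prodMk (uniformContinuous_cl.comp uniformContinuous_snd))
    Ps_eq := fun b e x => by
      rw [cl_jj]
      exact hP b (e, x) }⟩

end Pool.Agent.MQ
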