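import Pool.Agent.Lib.MP_9c87eb_gt.Fibre
import Pool.Agent.Lib.MP_9c87eb_gt.Loc
import Pool.Agent.Lib.MP_9c87eb_gt.SetupEx
import Pool.Agent.Lib.MP_9c87eb_gt.FMap
import Pool.Agent.Lib.MP_9c87eb_gt.Sect
import Pool.Agent.Lib.MP_9c87eb_gt.Fin

/-! The final assembly. -/

set_option autoImplicit false

namespace Pool.Agent.MQ

open Set Topology

theorem final :
    ¬ (∀ (F : Type) [TopologicalSpace F] [T2Space F] [CompactSpace F],
    (∀ x : F, ∃ U : Set F, IsOpen U ∧ x ∈ U ∧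
        ∃ V : Set (ℕ → unitInterval), IsOpen V ∧ Nonempty (U ≃ₜ V)) →
    ∀ (X : Type) [MetricSpace X] [CompactSpace X] (A : Set X), IsClosed A →
      ∀ f : C(A, Quot (fun φ ψ : {φ : C(F, ℕ → Set.Ioo (0:ℝ) 1) // Topology.IsEmbedding ⇑φ} =>
                ∃ h : F ≃ₜ F, ∀ x : F, ψ.1 x = φ.1 (h x))),
        ∃ U : Set X, IsOpen U ∧ ∃ hAU : A ⊆ U,
          ∃ g : C(U, Quot (fun φ ψ : {φ : C(F, ℕ → Set.Ioo (0:ℝ) 1) // Topology.IsEmbedding ⇑φ} =>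
                ∃ h : F ≃ₜ F, ∀ x : F, ψ.1 x = φ.1 (h x))),
            ∀ a : A, g (Set.inclusion hAU a) = f a) := by
  intro H
  obtain ⟨𝔽⟩ := exists_fib
  obtain ⟨S⟩ := exists_setup 𝔽
  obtain ⟨f, hf⟩ := exists_fmap 𝔽 S
  have hcl : IsClosed (Set.range S.JE) := (isCompact_range S.JE_cont).isClosed
  obtain ⟨U, hU, hAU, g, hg⟩ := @H FF _ _ _ FF_locally HC
    (PiCountable.metricSpace : MetricSpace (ℕ → unitInterval)) inferInstance (Set.range S.JE) hcl f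
  refine fin_contra 𝔽 S fun ε hε => exists_sect 𝔽 S hU hAU g (fun e => ?_) ε hε
  have := hg ⟨S.JE e, e, rfl⟩
  rw [hf e] at this
  exact this

end Pool.Agent.MQ
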